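import Mathlib

/-!
Boolean valued sets over a complete Boolean algebra `B`.
-/

open Set Classical

namespace Pool.Agent.Lib.BVM

/-! ### Algebra -/

section algebra

variable {B : Type*} [CompleteBooleanAlgebra B]

theorem ne_bot_mono' {x y : B} (h : x ≤ y) (hx : x ≠ ⊥) : y ≠ ⊥ :=
  fun hy => hx (le_bot_iff.1 (hy ▸ h))

/-- Disjoint refinement of a family along a well-order. -/
theorem disjointify' {ι : Type*} (x : ι → B) : ∃ a : ι → B, (∀ i, a i ≤ x i) ∧
    (∀ i j, i ≠ j → a i ⊓ a j = ⊥) ∧ (⨆ i, a i = ⨆ i, x i) := by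
  set r : ι → ι → Prop := WellOrderingRel with hr
  have hwo : IsWellOrder ι r := WellOrderingRel.isWellOrder
  set a : ι → B := fun i => x i ⊓ (⨆ j : {j // r j i}, x j)ᶜ with ha
  have hdis : ∀ i j, r i j → a i ⊓ a j = ⊥ := by
    intro i j hij
    rw [← le_bot_iff]
    have h1 : a i ≤ ⨆ k : {k // r k j}, x k :=
      inf_le_left.trans (le_iSup (fun k : {k // r k j} => x k) ⟨i, hij⟩)
    calc a i ⊓ a j ≤ (⨆ k : {k // r k j}, x k) ⊓ (⨆ k : {k // r k j}, x k)ᶜ :=
          inf_le_inf h1 inf_le_right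
      _ = ⊥ := inf_compl_self _
      _ ≤ ⊥ := le_rfl
  refine ⟨a, fun i => inf_le_left, fun i j hij => ?_, ?_⟩
  · rcases trichotomous_of r i j with h | h | h
    · exact hdis i j h
    · exact absurd h hij
    · rw [inf_comm]; exact hdis j i h
  · refine le_antisymm (iSup_mono fun i => inf_le_left) (iSup_le fun i => ?_)
    refine hwo.wf.induction (C := fun i => x i ≤ ⨆ i, a i) i (fun i ih => ?_)
    have h1 : x i ≤ a i ⊔ ⨆ j : {j // r j i}, x j := by
      rw [ha]
      simp only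
      rw [sup_inf_right, sup_comm _ᶜ, sup_compl_eq_top, inf_top_eq]
      exact le_sup_left
    exact h1.trans (sup_le (le_iSup a i) (iSup_le fun j => ih j.1 j.2))

end algebra

/-! ### Ultrafilters on Boolean algebras -/

/-- An ultrafilter on a Boolean algebra. -/
structure Ultra (B : Type) [BooleanAlgebra B] where
  carrier : Set B
  top_mem : ⊤ ∈ carrier
  inf_mem : ∀ {x y}, x ∈ carrier → y ∈ carrier → x ⊓ y ∈ carrier
  up : ∀ {x y}, x ∈ carrier → x ≤ y → y ∈ carrier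
  compl_iff : ∀ {x}, xᶜ ∈ carrier ↔ x ∉ carrier

namespace Ultra

section

variable {B : Type} [BooleanAlgebra B]

instance : Membership B (Ultra B) := ⟨fun U x => x ∈ U.carrier⟩

variable {U : Ultra B} {x y : B}

theorem mono (hx : x ∈ U) (h : x ≤ y) : y ∈ U := U.up hx h

theorem inf_iff : x ⊓ y ∈ U ↔ x ∈ U ∧ y ∈ U :=
  ⟨fun h => ⟨U.up h inf_le_left, U.up h inf_le_right⟩, fun h => U.inf_mem h.1 h.2⟩

theorem not_iff : xᶜ ∈ U ↔ x ∉ U := U.compl_iff

theorem top : ⊤ ∈ U := U.top_mem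

theorem bot : ⊥ ∉ U := by
  rw [← not_iff, compl_bot]
  exact top

theorem sup_iff : x ⊔ y ∈ U ↔ x ∈ U ∨ y ∈ U := by
  rw [← not_not (a := x ⊔ y ∈ U), ← not_iff, compl_sup, inf_iff, not_iff, not_iff]
  tauto

theorem himp_iff : x ⇨ y ∈ U ↔ (x ∈ U → y ∈ U) := by
  rw [himp_eq, sup_iff, not_iff]
  tauto

end

variable {B : Type} [CompleteBooleanAlgebra B]

theorem exists_mem {b : B} (hb : b ≠ ⊥) : ∃ U : Ultra B, b ∈ U := by
  set S : Set (Set B) := {F | b ∈ F ∧ ⊥ ∉ F ∧ (∀ x ∈ F, ∀ y ∈ F, x ⊓ y ∈ F) ∧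
    ∀ x ∈ F, ∀ y, x ≤ y → y ∈ F} with hS
  have hne : Ici b ∈ S := by
    refine ⟨le_refl b, fun h => hb (le_bot_iff.1 h), fun x hx y hy => le_inf hx hy,
      fun x hx y hy => le_trans hx hy⟩
  obtain ⟨F, hbF, hF⟩ := zorn_subset_nonempty S (by
    intro c hc hchain hcne
    obtain ⟨s0, hs0⟩ := hcne
    refine ⟨⋃₀ c, ⟨⟨s0, hs0, (hc hs0).1⟩, ?_, ?_, ?_⟩, fun s hs => subset_sUnion_of_mem hs⟩
    · rintro ⟨s, hs, h⟩
      exact (hc hs).2.1 h
    · rintro x ⟨s, hs, hx⟩ y ⟨s', hs', hy⟩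
      rcases hchain.total hs hs' with h | h
      · exact ⟨s', hs', (hc hs').2.2.1 x (h hx) y hy⟩
      · exact ⟨s, hs, (hc hs).2.2.1 x hx y (h hy)⟩
    · rintro x ⟨s, hs, hx⟩ y hxy
      exact ⟨s, hs, (hc hs).2.2.2 x hx y hxy⟩) (Ici b) hne
  obtain ⟨h1, h2, h3, h4⟩ := hF.1
  refine ⟨⟨F, h4 b h1 ⊤ le_top, fun {x y} hx hy => h3 x hx y hy, fun {x y} hx hxy => h4 x hx y hxy,
    fun {x} => ⟨fun h5 h6 => ?_, fun h5 => ?_⟩⟩, h1⟩
  · have := h3 _ h5 _ h6
    rw [compl_inf_self] at this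
    exact h2 this
  · by_contra h6
    apply h5
    set F' : Set B := {y | ∃ f ∈ F, f ⊓ x ≤ y} with hF'
    have hFF' : F ⊆ F' := fun y hy => ⟨y, hy, inf_le_left⟩
    have hF'S : F' ∈ S := by
      refine ⟨hFF' h1, ?_, ?_, ?_⟩
      · rintro ⟨f, hf, h7⟩
        apply h6
        refine h4 f hf _ ?_
        rw [le_compl_iff_disjoint_right, disjoint_iff]
        exact le_bot_iff.1 h7
      · rintro y ⟨f, hf, h7⟩ z ⟨g, hg, h8⟩
        refine ⟨f ⊓ g, h3 f hf g hg, le_inf ?_ ?_⟩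
        · exact (inf_le_inf_right x inf_le_left).trans h7
        · exact (inf_le_inf_right x inf_le_right).trans h8
      · rintro y ⟨f, hf, h7⟩ z hyz
        exact ⟨f, hf, h7.trans hyz⟩
    exact hF.2 hF'S hFF' ⟨b, h1, inf_le_right⟩

/-- Ultrafilters separate elements. -/
theorem le_of_forall {a b : B} (h : ∀ U : Ultra B, a ∈ U → b ∈ U) : a ≤ b := by
  by_contra hcon
  have h1 : a ⊓ bᶜ ≠ ⊥ := by
    intro h2
    exact hcon (by rwa [← disjoint_iff, disjoint_compl_right_iff] at h2)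
  obtain ⟨U, hU⟩ := exists_mem h1
  obtain ⟨h2, h3⟩ := inf_iff.1 hU
  exact not_iff.1 h3 (h U h2)

theorem ext_of_forall {a b : B} (h : ∀ U : Ultra B, a ∈ U ↔ b ∈ U) : a = b :=
  le_antisymm (le_of_forall fun U => (h U).1) (le_of_forall fun U => (h U).2)

theorem eq_top_of_forall {a : B} (h : ∀ U : Ultra B, a ∈ U) : a = ⊤ :=
  top_le_iff.1 (le_of_forall fun U _ => h U)

end Ultra

/-! ### Names -/

/-- Boolean valued sets. -/
inductive bSet (B : Type) : Type 1
  | mk (α : Type) (A : α → bSet B) (w : α → B) : bSet B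

namespace bSet

variable {B : Type} [CompleteBooleanAlgebra B]

/-- Boolean value of equality. -/
def beq : bSet B → bSet B → B
  | mk _ A w, mk _ A' w' =>
    (⨅ a, w a ⇨ ⨆ a', w' a' ⊓ beq (A a) (A' a')) ⊓ ⨅ a', w' a' ⇨ ⨆ a, w a ⊓ beq (A a) (A' a')

/-- Boolean value of membership. -/
def bmem (x : bSet B) : bSet B → B
  | mk _ A w => ⨆ a, w a ⊓ beq x (A a)

theorem beq_mk {α α' : Type} (A : α → bSet B) (A' : α' → bSet B) (w : α → B) (w' : α' → B) :
    beq (mk α A w) (mk α' A' w') =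
      (⨅ a, w a ⇨ ⨆ a', w' a' ⊓ beq (A a) (A' a')) ⊓ ⨅ a', w' a' ⇨ ⨆ a, w a ⊓ beq (A a) (A' a') :=
  rfl

theorem beq_refl (x : bSet B) : beq x x = ⊤ := by
  induction x with
  | mk α A w ih =>
    rw [eq_top_iff]
    unfold beq
    refine le_inf (le_iInf fun a => ?_) (le_iInf fun a => ?_) <;>
    · rw [le_himp_iff, top_inf_eq]
      refine le_iSup_of_le a ?_
      rw [ih a, inf_top_eq]

theorem beq_symm (x : bSet B) : ∀ y, beq x y = beq y x := by
  induction x with
  | mk α A w ih =>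
    intro y
    cases y with
    | mk α' A' w' =>
      unfold beq
      rw [inf_comm]
      congr 1
      · congr 1; funext a'; congr 1; congr 1; funext a; rw [ih]
      · congr 1; funext a; congr 1; congr 1; funext a'; rw [ih]

theorem beq_mk_le_left {α α' : Type} {A : α → bSet B} {A' : α' → bSet B} {w : α → B} {w' : α' → B}
    (a : α) : beq (mk α A w) (mk α' A' w') ⊓ w a ≤ ⨆ a', w' a' ⊓ beq (A a) (A' a') := by
  rw [← le_himp_iff, beq_mk]
  exact inf_le_left.trans (iInf_le _ a)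

theorem beq_mk_le_right {α α' : Type} {A : α → bSet B} {A' : α' → bSet B} {w : α → B}
    {w' : α' → B} (a' : α') :
    beq (mk α A w) (mk α' A' w') ⊓ w' a' ≤ ⨆ a, w a ⊓ beq (A a) (A' a') := by
  rw [← le_himp_iff, beq_mk]
  exact inf_le_right.trans (iInf_le _ a')

theorem beq_trans (x : bSet B) : ∀ y z, beq x y ⊓ beq y z ≤ beq x z := by
  induction x with
  | mk α A w ih =>
    rintro ⟨α', A', w'⟩ ⟨α'', A'', w''⟩
    conv_rhs => unfold beq
    refine le_inf (le_iInf fun a => ?_) (le_iInf fun a'' => ?_)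
    · rw [le_himp_iff]
      have h1 : beq (mk α A w) (mk α' A' w') ⊓ beq (mk α' A' w') (mk α'' A'' w'') ⊓ w a ≤
          beq (mk α' A' w') (mk α'' A'' w'') ⊓ ⨆ a', w' a' ⊓ beq (A a) (A' a') :=
        le_inf (inf_le_left.trans inf_le_right)
          ((inf_le_inf_right _ inf_le_left).trans (beq_mk_le_left a))
      refine h1.trans ?_
      rw [inf_iSup_eq]
      refine iSup_le fun a' => ?_
      have h2 : beq (mk α' A' w') (mk α'' A'' w'') ⊓ (w' a' ⊓ beq (A a) (A' a')) ≤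
          beq (A a) (A' a') ⊓ ⨆ a'', w'' a'' ⊓ beq (A' a') (A'' a'') :=
        le_inf (inf_le_right.trans inf_le_right)
          ((inf_le_inf_left _ inf_le_left).trans (beq_mk_le_left a'))
      refine h2.trans ?_
      rw [inf_iSup_eq]
      refine iSup_mono fun a'' => ?_
      exact le_inf (inf_le_right.trans inf_le_left)
        ((inf_le_inf_left _ inf_le_right).trans (ih a _ _))
    · rw [le_himp_iff]
      have h1 : beq (mk α A w) (mk α' A' w') ⊓ beq (mk α' A' w') (mk α'' A'' w'') ⊓ w'' a'' ≤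
          beq (mk α A w) (mk α' A' w') ⊓ ⨆ a', w' a' ⊓ beq (A' a') (A'' a'') :=
        le_inf (inf_le_left.trans inf_le_left)
          ((inf_le_inf_right _ inf_le_right).trans (beq_mk_le_right a''))
      refine h1.trans ?_
      rw [inf_iSup_eq]
      refine iSup_le fun a' => ?_
      have h2 : beq (mk α A w) (mk α' A' w') ⊓ (w' a' ⊓ beq (A' a') (A'' a'')) ≤
          beq (A' a') (A'' a'') ⊓ ⨆ a, w a ⊓ beq (A a) (A' a') :=
        le_inf (inf_le_right.trans inf_le_right)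
          ((inf_le_inf_left _ inf_le_left).trans (beq_mk_le_right a'))
      refine h2.trans ?_
      rw [inf_iSup_eq]
      refine iSup_mono fun a => ?_
      refine le_inf (inf_le_right.trans inf_le_left) ?_
      refine le_trans (le_inf (inf_le_right.trans inf_le_right) inf_le_left) (ih a _ _)

theorem bmem_mk (x : bSet B) {α : Type} (A : α → bSet B) (w : α → B) :
    bmem x (mk α A w) = ⨆ a, w a ⊓ beq x (A a) := rfl

theorem bmem_congr_left (x x' y : bSet B) : beq x x' ⊓ bmem x y ≤ bmem x' y := by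
  cases y with
  | mk α A w =>
    rw [bmem_mk, bmem_mk, inf_iSup_eq]
    refine iSup_mono fun a => le_inf (inf_le_right.trans inf_le_left) ?_
    rw [beq_symm x x']
    exact (inf_le_inf_left _ inf_le_right).trans (beq_trans _ _ _)

theorem bmem_congr_right (x y y' : bSet B) : beq y y' ⊓ bmem x y ≤ bmem x y' := by
  obtain ⟨α, A, w⟩ := y
  obtain ⟨α', A', w'⟩ := y'
  rw [bmem_mk, bmem_mk, inf_iSup_eq]
  refine iSup_le fun a => ?_
  have h1 : beq (mk α A w) (mk α' A' w') ⊓ (w a ⊓ beq x (A a)) ≤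
      beq x (A a) ⊓ ⨆ a', w' a' ⊓ beq (A a) (A' a') :=
    le_inf (inf_le_right.trans inf_le_right)
      ((inf_le_inf_left _ inf_le_left).trans (beq_mk_le_left a))
  refine h1.trans ?_
  rw [inf_iSup_eq]
  refine iSup_mono fun a' => le_inf (inf_le_right.trans inf_le_left) ?_
  exact (inf_le_inf_left _ inf_le_right).trans (beq_trans _ _ _)

theorem le_bmem_mk {α : Type} (A : α → bSet B) (w : α → B) (a : α) :
    w a ≤ bmem (A a) (mk α A w) := by
  rw [bmem_mk]
  refine le_iSup_of_le a ?_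
  rw [beq_refl, inf_top_eq]

theorem le_beq_mk {α α' : Type} {A : α → bSet B} {A' : α' → bSet B} {w : α → B} {w' : α' → B}
    {p : B} (h1 : ∀ a, p ⊓ w a ≤ bmem (A a) (mk α' A' w'))
    (h2 : ∀ a', p ⊓ w' a' ≤ bmem (A' a') (mk α A w)) : p ≤ beq (mk α A w) (mk α' A' w') := by
  unfold beq
  refine le_inf (le_iInf fun a => le_himp_iff.2 (h1 a)) (le_iInf fun a' => le_himp_iff.2 ?_)
  refine (h2 a').trans ?_
  rw [bmem_mk]
  refine iSup_mono fun a => ?_
  rw [beq_symm]

/-- Mixing. -/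
theorem exists_mix {ι : Type} (x : ι → bSet B) (b : ι → B) (hb : ∀ i j, i ≠ j → b i ⊓ b j = ⊥) :
    ∃ y, ∀ i, b i ≤ beq y (x i) := by
  have hx : ∀ i, ∃ (α : Type) (A : α → bSet B) (w : α → B), x i = mk α A w := by
    intro i
    cases h : x i with
    | mk α A w => exact ⟨α, A, w, rfl⟩
  choose α A w hx using hx
  refine ⟨mk (Σ i, α i) (fun p => A p.1 p.2) (fun p => b p.1 ⊓ w p.1 p.2), fun i => ?_⟩
  rw [hx i]
  refine le_beq_mk (fun p => ?_) (fun a => ?_)
  · obtain ⟨j, a⟩ := p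
    by_cases hij : j = i
    · subst hij
      exact (inf_le_right.trans inf_le_right).trans (le_bmem_mk _ _ _)
    · have : b i ⊓ (b j ⊓ w j a) ≤ ⊥ := by
        rw [← hb i j (Ne.symm hij)]
        exact le_inf inf_le_left (inf_le_right.trans inf_le_left)
      exact this.trans bot_le
  · exact le_bmem_mk (fun p : Σ i, α i => A p.1 p.2) (fun p => b p.1 ⊓ w p.1 p.2) ⟨i, a⟩

/-- Maximum principle. -/
theorem exists_max (F : bSet B → B) (hF : ∀ x y, beq x y ⊓ F x ≤ F y) :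
    ∃ x, ⨆ y, F y ≤ F x := by
  obtain ⟨a, ha1, ha2, ha3⟩ := disjointify' (fun b : range F => b.1)
  have hy : ∀ b : range F, ∃ y, F y = b.1 := fun b => b.2
  choose y hy using hy
  obtain ⟨x, hx⟩ := exists_mix y a ha2
  refine ⟨x, ?_⟩
  have h1 : ⨆ y, F y = ⨆ b : range F, b.1 := by
    apply le_antisymm
    · exact iSup_le fun y => le_iSup (fun b : range F => b.1) ⟨F y, mem_range_self y⟩
    · exact iSup_le fun b => by
        rw [← hy b]
        exact le_iSup F _
  rw [h1, ← ha3]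
  refine iSup_le fun b => ?_
  refine le_trans (le_inf ?_ ((ha1 b).trans (hy b).symm.le)) (hF (y b) x)
  rw [beq_symm]
  exact hx b

end bSet

end Pool.Agent.Lib.BVM
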