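import Mathlib

/-!
Set theoretic notions inside a structure `(M, E)`.
-/

namespace Pool.Agent.Lib.BVM

universe u

variable {M : Type u} (E : M → M → Prop)

/-- `x` is the empty set of the model. -/
def IsEmp (x : M) : Prop := ∀ z, ¬ E z x

/-- `s = x ∪ {x}` in the model. -/
def IsSucc (x s : M) : Prop := ∀ z, E z s ↔ (E z x ∨ z = x)

/-- `x` contains the empty set and is closed under successor. -/
def IsInductive (x : M) : Prop :=
  (∃ e, IsEmp E e ∧ E e x) ∧ ∀ y, E y x → ∃ s, IsSucc E y s ∧ E s x

/-- `w` is the set of natural numbers of the model: the least inductive set. -/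
def IsOmega (w : M) : Prop := IsInductive E w ∧ ∀ x, IsInductive E x → ∀ z, E z w → E z x

/-- `p = {x, y}` in the model. -/
def IsUPair (x y p : M) : Prop := ∀ z, E z p ↔ (z = x ∨ z = y)

/-- `p = (x, y) = {{x}, {x, y}}` in the model. -/
def IsPair (x y p : M) : Prop :=
  ∃ a b, IsUPair E x x a ∧ IsUPair E x y b ∧ IsUPair E a b p

/-- The ordered pair `(x, y)` is an element of `f`; for a function `f` this says `f(x) = y`. -/
def App (f x y : M) : Prop := ∃ p, IsPair E x y p ∧ E p f

/-- `f` is a function with domain `a`: a set of ordered pairs with first coordinate in `a`, and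
every element of `a` is the first coordinate of exactly one of them. -/
def IsFunOn (f a : M) : Prop :=
  (∀ p, E p f → ∃ x y, E x a ∧ IsPair E x y p) ∧
  ∀ x, E x a → ∃! y, App E f x y

/-- `f` is a function from `a` to `b`. -/
def IsFun (f a b : M) : Prop := IsFunOn E f a ∧ ∀ x y, App E f x y → E y b

/-- `f` is a function from `a` onto `b`. -/
def IsSurj (f a b : M) : Prop := IsFun E f a b ∧ ∀ y, E y b → ∃ x, E x a ∧ App E f x y

end Pool.Agent.Lib.BVM
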