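import Pool.Agent.Lib.BVM.Quot
import Pool.Agent.Lib.BVM.Notions

/-!
Boolean valued set theoretic notions; natural numbers, pairs and functions in the quotient model.
-/

open Set Classical

namespace Pool.Agent.Lib.BVM

section plain

variable {M : Type*} {E : M → M → Prop} (hext : ∀ x y, (∀ z, E z x ↔ E z y) → x = y)
include hext

theorem upair_unique {x y p p' : M} (h : IsUPair E x y p) (h' : IsUPair E x y p') : p = p' :=
  hext _ _ fun z => (h z).trans (h' z).symm

omit hext in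
theorem upair_inj {x y x' y' p : M} (h : IsUPair E x y p) (h' : IsUPair E x' y' p) :
    (x = x' ∧ y = y') ∨ (x = y' ∧ y = x') := by
  have h1 : x = x' ∨ x = y' := (h' x).1 ((h x).2 (Or.inl rfl))
  have h2 : y = x' ∨ y = y' := (h' y).1 ((h y).2 (Or.inr rfl))
  have h3 : x' = x ∨ x' = y := (h x').1 ((h' x').2 (Or.inl rfl))
  have h4 : y' = x ∨ y' = y := (h y').1 ((h' y').2 (Or.inr rfl))
  rcases h1 with rfl | rfl
  · rcases h2 with rfl | rfl
    · rcases h4 with rfl | rfl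
      · exact Or.inl ⟨rfl, rfl⟩
      · exact Or.inl ⟨rfl, rfl⟩
    · exact Or.inl ⟨rfl, rfl⟩
  · rcases h2 with rfl | rfl
    · exact Or.inr ⟨rfl, rfl⟩
    · rcases h3 with rfl | rfl
      · exact Or.inl ⟨rfl, rfl⟩
      · exact Or.inl ⟨rfl, rfl⟩

theorem pair_unique {x y p p' : M} (h : IsPair E x y p) (h' : IsPair E x y p') : p = p' := by
  obtain ⟨a, b, h1, h2, h3⟩ := h
  obtain ⟨a', b', h1', h2', h3'⟩ := h'
  obtain rfl := upair_unique hext h1 h1'
  obtain rfl := upair_unique hext h2 h2'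
  exact upair_unique hext h3 h3'

omit hext in
theorem pair_inj {x y x' y' p : M} (h : IsPair E x y p) (h' : IsPair E x' y' p) :
    x = x' ∧ y = y' := by
  obtain ⟨a, b, h1, h2, h3⟩ := h
  obtain ⟨a', b', h1', h2', h3'⟩ := h'
  rcases upair_inj h3 h3' with ⟨rfl, rfl⟩ | ⟨rfl, rfl⟩
  · obtain ⟨rfl, _⟩ | ⟨rfl, _⟩ := upair_inj h1 h1'
    · rcases upair_inj h2 h2' with ⟨_, h⟩ | ⟨h, h'⟩
      · exact ⟨rfl, h⟩
      · exact ⟨rfl, h'.trans h⟩
    · rcases upair_inj h2 h2' with ⟨_, h⟩ | ⟨h, h'⟩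
      · exact ⟨rfl, h⟩
      · exact ⟨rfl, h'.trans h⟩
  · -- {x} = {x', y'} and {x, y} = {x'}
    have e1 : x' = x := by
      rcases upair_inj h1 h2' with ⟨h, _⟩ | ⟨_, h⟩ <;> exact h.symm
    have e2 : y' = x := by
      rcases upair_inj h1 h2' with ⟨_, h⟩ | ⟨h, _⟩ <;> exact h.symm
    have e3 : y = x' := by
      rcases upair_inj h2 h1' with ⟨_, h⟩ | ⟨_, h⟩ <;> exact h
    exact ⟨e1.symm, by rw [e3, e1, e2]⟩

omit hext in
theorem app_unique {f a x y y' : M} (hf : IsFunOn E f a) (hx : E x a) (h : App E f x y)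
    (h' : App E f x y') : y = y' := (hf.2 x hx).unique h h'

theorem succ_unique {x s s' : M} (h : IsSucc E x s) (h' : IsSucc E x s') : s = s' :=
  hext _ _ fun z => (h z).trans (h' z).symm

theorem emp_unique {x y : M} (h : IsEmp E x) (h' : IsEmp E y) : x = y :=
  hext _ _ fun z => ⟨fun h1 => absurd h1 (h z), fun h1 => absurd h1 (h' z)⟩

theorem omega_unique {w w' : M} (h : IsOmega E w) (h' : IsOmega E w') : w = w' :=
  hext _ _ fun z => ⟨h.2 _ h'.1 z, h'.2 _ h.1 z⟩

end plain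

variable {B : Type} [CompleteBooleanAlgebra B]

open bSet

/-! ### Boolean values of the notions -/

theorem BV.isEmp (x : bSet B) : BV (fun U => IsEmp (E U) (q U x)) :=
  BV.all fun _ => (BV.mem _ _).not

theorem BV.isSucc (x s : bSet B) : BV (fun U => IsSucc (E U) (q U x) (q U s)) :=
  BV.all fun _ => (BV.mem _ _).biimp ((BV.mem _ _).or (BV.eq _ _))

theorem BV.isInductive (x : bSet B) : BV (fun U => IsInductive (E U) (q U x)) :=
  BV.and (BV.ex fun e => (BV.isEmp e).and (BV.mem _ _))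
    (BV.all fun y => (BV.mem _ _).imp (BV.ex fun s => (BV.isSucc y s).and (BV.mem _ _)))

theorem BV.isUPair (x y p : bSet B) : BV (fun U => IsUPair (E U) (q U x) (q U y) (q U p)) :=
  BV.all fun _ => (BV.mem _ _).biimp ((BV.eq _ _).or (BV.eq _ _))

theorem BV.isPair (x y p : bSet B) : BV (fun U => IsPair (E U) (q U x) (q U y) (q U p)) :=
  BV.ex fun a => BV.ex fun b => (BV.isUPair x x a).and ((BV.isUPair x y b).and (BV.isUPair a b p))

theorem BV.app (f x y : bSet B) : BV (fun U => App (E U) (q U f) (q U x) (q U y)) :=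
  BV.ex fun p => (BV.isPair x y p).and (BV.mem _ _)

theorem BV.isFunOn (f a : bSet B) : BV (fun U => IsFunOn (E U) (q U f) (q U a)) :=
  BV.and (BV.all fun p => (BV.mem _ _).imp (BV.ex fun x => BV.ex fun y =>
      (BV.mem _ _).and (BV.isPair x y p)))
    (BV.all fun x => (BV.mem _ _).imp (BV.exUnique fun y => BV.app f x y))

theorem BV.isFun (f a b : bSet B) : BV (fun U => IsFun (E U) (q U f) (q U a) (q U b)) :=
  (BV.isFunOn f a).and (BV.all fun x => BV.all fun y => (BV.app f x y).imp (BV.mem _ _))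

theorem BV.isSurj (f a b : bSet B) : BV (fun U => IsSurj (E U) (q U f) (q U a) (q U b)) :=
  (BV.isFun f a b).and (BV.all fun y => (BV.mem _ _).imp (BV.ex fun x =>
    (BV.mem _ _).and (BV.app f x y)))

/-! ### Natural numbers -/

theorem E_num {U : Ultra B} {n : ℕ} (m : Mod U) :
    E U m (q U (num n)) ↔ ∃ k, k < n ∧ m = q U (num k) := by
  induction n with
  | zero => exact ⟨fun h => absurd h (E_emp m), fun ⟨k, hk, _⟩ => absurd hk (Nat.not_lt_zero k)⟩
  | succ n ih =>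
    change E U m (q U (bSet.ins (num n) (num n))) ↔ _
    rw [E_ins, ih]
    constructor
    · rintro (⟨k, hk, h⟩ | h)
      · exact ⟨k, Nat.lt_succ_of_lt hk, h⟩
      · exact ⟨n, Nat.lt_succ_self n, h⟩
    · rintro ⟨k, hk, h⟩
      rcases Nat.lt_succ_iff_lt_or_eq.1 hk with hk | rfl
      · exact Or.inl ⟨k, hk, h⟩
      · exact Or.inr h

theorem num_inj {U : Ultra B} {n : ℕ} : ∀ {m : ℕ}, q U (num m) = q U (num n) → m = n := by
  induction n using Nat.strong_induction_on with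
  | _ n ih =>
    intro m h
    rcases lt_trichotomy m n with hlt | heq | hgt
    · have h1 : E U (q U (num m)) (q U (num n)) := (E_num _).2 ⟨m, hlt, rfl⟩
      rw [← h] at h1
      obtain ⟨k, hk, hk'⟩ := (E_num _).1 h1
      have := ih k (hk.trans hlt) hk'
      omega
    · exact heq
    · have h1 : E U (q U (num n)) (q U (num m)) := (E_num _).2 ⟨n, hgt, rfl⟩
      rw [h] at h1
      obtain ⟨k, hk, hk'⟩ := (E_num _).1 h1
      have := ih k hk hk'
      omega

theorem E_num_num {U : Ultra B} {n m : ℕ} : E U (q U (num n)) (q U (num m)) ↔ n < m := by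
  rw [E_num]
  constructor
  · rintro ⟨k, hk, h⟩
    rw [num_inj h]
    exact hk
  · exact fun h => ⟨n, h, rfl⟩

theorem isSucc_num (U : Ultra B) (n : ℕ) : IsSucc (E U) (q U (num n)) (q U (num (n + 1))) :=
  fun z => E_ins z

theorem isOmega_omega (U : Ultra B) : IsOmega (E U) (q U omega) := by
  refine ⟨⟨⟨q U (num 0), E_emp, E_num_omega U 0⟩, ?_⟩, ?_⟩
  · refine ball_omega (P := fun U y => ∃ s, IsSucc (E U) y s ∧ E U s (q U omega)) (fun x => ?_)
      (fun n U => ?_) U
    · exact BV.ex fun s => (BV.isSucc x s).and (BV.mem _ _)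
    · exact ⟨_, isSucc_num U n, E_num_omega U _⟩
  · intro x hx z hz
    obtain ⟨X, rfl⟩ := q_surj x
    obtain ⟨Z, rfl⟩ := q_surj z
    refine of_mem_omega (P := fun U => E U (q U Z) (q U X))
      (Q := fun U => IsInductive (E U) (q U X)) (BV.mem _ _) (BV.isInductive X)
      (fun n U hZ hQ => ?_) hz hx
    rw [hZ]
    clear hZ
    induction n with
    | zero =>
      obtain ⟨e, he, heX⟩ := hQ.1
      rwa [emp_unique (ext_mod U) he (E_emp)] at heX
    | succ n ih =>
      obtain ⟨s, hs, hsX⟩ := hQ.2 _ ih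
      rwa [succ_unique (ext_mod U) hs (isSucc_num U n)] at hsX

theorem eq_omega {U : Ultra B} {w : Mod U} (h : IsOmega (E U) w) : w = q U omega :=
  omega_unique (ext_mod U) h (isOmega_omega U)

/-! ### Pairs -/

/-- name for the ordered pair -/
def bpair (x y : bSet B) : bSet B :=
  bSet.ins (bSet.ins y (bSet.ins x bSet.emp)) (bSet.ins (bSet.ins x (bSet.ins x bSet.emp)) bSet.emp)

theorem isUPair_ins {U : Ultra B} (x y : bSet B) :
    IsUPair (E U) (q U x) (q U y) (q U (bSet.ins y (bSet.ins x bSet.emp))) := by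
  intro z
  rw [E_ins, E_ins]
  have := E_emp z
  tauto

theorem isPair_bpair (U : Ultra B) (x y : bSet B) :
    IsPair (E U) (q U x) (q U y) (q U (bpair x y)) :=
  ⟨_, _, isUPair_ins x x, isUPair_ins x y, isUPair_ins _ _⟩

theorem isPair_iff {U : Ultra B} {x y : bSet B} {p : Mod U} :
    IsPair (E U) (q U x) (q U y) p ↔ p = q U (bpair x y) :=
  ⟨fun h => pair_unique (ext_mod U) h (isPair_bpair U x y), fun h => h ▸ isPair_bpair U x y⟩

theorem bpair_inj {U : Ultra B} {x y x' y' : bSet B} :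
    q U (bpair x y) = q U (bpair x' y') ↔ q U x = q U x' ∧ q U y = q U y' := by
  constructor
  · intro h
    exact pair_inj (isPair_bpair U x y) (h ▸ isPair_bpair U x' y')
  · rintro ⟨h1, h2⟩
    rw [← isPair_iff, ← h1, ← h2]
    exact isPair_bpair U x y

theorem app_iff {U : Ultra B} {f x y : bSet B} :
    App (E U) (q U f) (q U x) (q U y) ↔ E U (q U (bpair x y)) (q U f) := by
  constructor
  · rintro ⟨p, hp, hpf⟩
    rwa [isPair_iff.1 hp] at hpf
  · exact fun h => ⟨_, isPair_bpair U x y, h⟩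

/-- names for functions given by their values -/
def graphName {ι : Type} (x y : ι → bSet B) (w : ι → B) : bSet B :=
  mk ι (fun i => bpair (x i) (y i)) w

theorem app_graph {U : Ultra B} {ι : Type} {x y : ι → bSet B} {w : ι → B} {a b : bSet B} :
    App (E U) (q U (graphName x y w)) (q U a) (q U b) ↔
      (⨆ i, w i ⊓ (beq a (x i) ⊓ beq b (y i))) ∈ U := by
  rw [app_iff]
  unfold graphName
  rw [E_mk]
  have h : ∀ i, beq (bpair a b) (bpair (x i) (y i)) = beq a (x i) ⊓ beq b (y i) := fun i =>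
    Ultra.ext_of_forall fun U => by
      rw [← q_eq, bpair_inj, Ultra.inf_iff, q_eq, q_eq]
  simp only [h]

/-! ### Functions from the natural numbers to the natural numbers -/

/-- name of a relation on natural numbers -/
def fnN (y : ℕ → ℕ → B) : bSet B :=
  graphName (ι := ℕ × ℕ) (fun p => num p.1) (fun p => num p.2) (fun p => y p.1 p.2)

theorem beq_num_ne {n m : ℕ} (h : n ≠ m) : beq (num n : bSet B) (num m) = ⊥ :=
  le_bot_iff.1 (Ultra.le_of_forall fun U hU => absurd (num_inj (q_eq.2 hU)) h)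

theorem app_fnN {U : Ultra B} {y : ℕ → ℕ → B} {n m : ℕ} :
    App (E U) (q U (fnN y)) (q U (num n)) (q U (num m)) ↔ y n m ∈ U := by
  unfold fnN
  rw [app_graph]
  have h : (⨆ i : ℕ × ℕ, y i.1 i.2 ⊓ (beq (num n : bSet B) (num i.1) ⊓ beq (num m) (num i.2))) =
      y n m := by
    apply le_antisymm
    · refine iSup_le fun i => ?_
      by_cases h1 : n = i.1
      · by_cases h2 : m = i.2
        · rw [h1, h2]
          exact inf_le_left
        · rw [beq_num_ne h2]
          simp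
      · rw [beq_num_ne h1]
        simp
    · refine le_iSup_of_le (n, m) ?_
      simp only
      rw [beq_refl, beq_refl, inf_top_eq, inf_top_eq]
  rw [h]

/-- Every element of a relation name is a pair of numerals. -/
theorem of_mem_fnN {y : ℕ → ℕ → B} {Z : bSet B} {P Q : Ultra B → Prop} (hP : BV P) (hQ : BV Q)
    (h : ∀ n m U, y n m ∈ U → q U Z = q U (bpair (num n) (num m)) → Q U → P U) {U : Ultra B}
    (h1 : E U (q U Z) (q U (fnN y))) (h2 : Q U) : P U :=
  of_mem (X := fnN y) hP hQ (fun p U hp hZ hQ => h p.1 p.2 U hp hZ hQ) h1 h2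

/-- The relation name of a total single valued matrix is a function. -/
theorem isFun_fnN {U : Ultra B} {y : ℕ → ℕ → B} (h1 : (⨅ n, ⨆ m, y n m) ∈ U)
    (h2 : (⨅ n, ⨅ m, ⨅ m', ⨅ _ : m ≠ m', (y n m ⊓ y n m')ᶜ) ∈ U) :
    IsFun (E U) (q U (fnN y)) (q U omega) (q U omega) := by
  refine ⟨⟨?_, ?_⟩, ?_⟩
  · intro p hp
    obtain ⟨Z, rfl⟩ := q_surj p
    refine of_mem_fnN (P := fun U => ∃ x y', E U x (q U omega) ∧ IsPair (E U) x y' (q U Z))
      (BV.ex fun x => BV.ex fun y' => (BV.mem _ _).and (BV.isPair x y' Z)) (BV.const True)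
      (fun n m U _ hZ _ => ?_) hp trivial
    exact ⟨q U (num n), q U (num m), E_num_omega U n, isPair_iff.2 hZ⟩
  · intro x hx
    obtain ⟨X, rfl⟩ := q_surj x
    refine of_mem_omega (P := fun U => ∃! y', App (E U) (q U (fnN y)) (q U X) y')
      (Q := fun U => (⨅ n, ⨆ m, y n m) ∈ U ∧ (⨅ n, ⨅ m, ⨅ m', ⨅ _ : m ≠ m', (y n m ⊓ y n m')ᶜ) ∈ U)
      (BV.exUnique fun y' => BV.app _ X y') ((BV.of_mem _).and (BV.of_mem _))
      (fun n U hX hQ => ?_) hx ⟨h1, h2⟩
    rw [hX]
    refine of_iSup (t := fun m => y n m)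
      (P := fun U => ∃! y', App (E U) (q U (fnN y)) (q U (num n)) y')
      (Q := fun U => (⨅ n, ⨅ m, ⨅ m', ⨅ _ : m ≠ m', (y n m ⊓ y n m')ᶜ) ∈ U)
      (BV.exUnique fun y' => BV.app _ _ y') (BV.of_mem _) (fun m U hm hQ => ?_)
      (Ultra.mono hQ.1 (iInf_le _ n)) hQ.2
    refine ⟨q U (num m), app_fnN.2 hm, fun y' hy' => ?_⟩
    obtain ⟨Y, rfl⟩ := q_surj y'
    rw [app_iff] at hy'
    refine of_mem_fnN (Z := bpair (num n) Y) (P := fun U => q U Y = q U (num m))
      (Q := fun U => y n m ∈ U ∧ (⨅ n, ⨅ m, ⨅ m', ⨅ _ : m ≠ m', (y n m ⊓ y n m')ᶜ) ∈ U)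
      (BV.eq _ _) ((BV.of_mem _).and (BV.of_mem _)) (fun n' m' U hn hZ hQ => ?_) hy' ⟨hm, hQ⟩
    obtain ⟨h3, h4⟩ := bpair_inj.1 hZ
    obtain rfl := num_inj h3
    by_cases hmm : m = m'
    · rw [h4, hmm]
    · exfalso
      have h5 : (y n m ⊓ y n m')ᶜ ∈ U := Ultra.mono hQ.2
        ((iInf_le _ n).trans ((iInf_le _ m).trans ((iInf_le _ m').trans (iInf_le _ hmm))))
      exact Ultra.not_iff.1 h5 (Ultra.inf_iff.2 ⟨hQ.1, hn⟩)
  · intro x y' hxy
    obtain ⟨X, rfl⟩ := q_surj x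
    obtain ⟨Y, rfl⟩ := q_surj y'
    rw [app_iff] at hxy
    refine of_mem_fnN (Z := bpair X Y) (P := fun U => E U (q U Y) (q U omega)) (BV.mem _ _)
      (BV.const True) (fun n m U _ hZ _ => ?_) hxy trivial
    rw [(bpair_inj.1 hZ).2]
    exact E_num_omega U m

/-- Representation of functions by matrices. -/
theorem fun_repr {X : bSet B} {y : ℕ → ℕ → B} {b : B}
    (h1 : ∀ U, b ∈ U → IsFun (E U) (q U X) (q U omega) (q U omega))
    (h2 : ∀ U, b ∈ U → ∀ n m, App (E U) (q U X) (q U (num n)) (q U (num m)) ↔ y n m ∈ U)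
    {U : Ultra B} (hb : b ∈ U) : q U X = q U (fnN y) := by
  apply ext_mod
  intro z
  obtain ⟨Z, rfl⟩ := q_surj z
  constructor
  · intro hz
    obtain ⟨x, y', hx, hp⟩ := (h1 U hb).1.1 _ hz
    have hy' : E U y' (q U omega) := (h1 U hb).2 _ _ ⟨_, hp, hz⟩
    obtain ⟨X', rfl⟩ := q_surj x
    obtain ⟨Y', rfl⟩ := q_surj y'
    refine of_mem_omega (Z := X') (P := fun U => E U (q U Z) (q U (fnN y)))
      (Q := fun U => b ∈ U ∧ E U (q U Y') (q U omega) ∧ IsPair (E U) (q U X') (q U Y') (q U Z) ∧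
        E U (q U Z) (q U X)) (BV.mem _ _)
      ((BV.of_mem _).and ((BV.mem _ _).and ((BV.isPair _ _ _).and (BV.mem _ _))))
      (fun n U hn hQ => ?_) hx ⟨hb, hy', hp, hz⟩
    obtain ⟨hb, hy', hp, hz⟩ := hQ
    rw [hn] at hp
    refine of_mem_omega (Z := Y') (P := fun U => E U (q U Z) (q U (fnN y)))
      (Q := fun U => b ∈ U ∧ IsPair (E U) (q U (num n)) (q U Y') (q U Z) ∧
        E U (q U Z) (q U X)) (BV.mem _ _)
      ((BV.of_mem _).and ((BV.isPair _ _ _).and (BV.mem _ _)))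
      (fun m U hm hQ => ?_) hy' ⟨hb, hp, hz⟩
    obtain ⟨hb, hp, hz⟩ := hQ
    rw [hm] at hp
    have h3 : y n m ∈ U := (h2 U hb n m).1 ⟨_, hp, hz⟩
    rw [isPair_iff.1 hp, ← app_iff, app_fnN]
    exact h3
  · intro hz
    refine of_mem_fnN (P := fun U => E U (q U Z) (q U X)) (Q := fun U => b ∈ U) (BV.mem _ _)
      (BV.of_mem _) (fun n m U hn hZ hb => ?_) hz hb
    rw [hZ, ← app_iff, h2 U hb]
    exact hn

end Pool.Agent.Lib.BVM
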