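import Mathlib

/-!
Models of ZFC: first-order formulas of set theory, satisfaction, and the axioms.
-/

namespace Pool.Agent.Lib.BVM

universe u

/-- First-order formulas of the language `{∈, =}` with variables `x_0, x_1, ...`. -/
inductive Fml : Type
  | mem (i j : ℕ) : Fml
  | eq (i j : ℕ) : Fml
  | neg (φ : Fml) : Fml
  | and (φ ψ : Fml) : Fml
  | all (i : ℕ) (φ : Fml) : Fml

/-- Satisfaction of a formula in `(M, E)` under the assignment `v`. -/
def Sat {M : Type u} (E : M → M → Prop) : Fml → (ℕ → M) → Prop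
  | Fml.mem i j, v => E (v i) (v j)
  | Fml.eq i j, v => v i = v j
  | Fml.neg φ, v => ¬ Sat E φ v
  | Fml.and φ ψ, v => Sat E φ v ∧ Sat E ψ v
  | Fml.all i φ, v => ∀ x, Sat E φ (Function.update v i x)

/-- `(M, E)` is a model of ZFC. The schemas range over all first-order formulas with
parameters from `M`. -/
structure ModelZFC (M : Type u) (E : M → M → Prop) : Prop where
  ext : ∀ x y, (∀ z, E z x ↔ E z y) → x = y
  foundation : ∀ x, (∃ y, E y x) → ∃ y, E y x ∧ ∀ z, E z y → ¬ E z x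
  pairing : ∀ x y, ∃ z, ∀ w, E w z ↔ w = x ∨ w = y
  union : ∀ x, ∃ y, ∀ z, E z y ↔ ∃ w, E w x ∧ E z w
  power : ∀ x, ∃ y, ∀ z, E z y ↔ ∀ w, E w z → E w x
  infinity : ∃ x, (∃ e, E e x ∧ ∀ z, ¬ E z e) ∧
    ∀ y, E y x → ∃ s, E s x ∧ ∀ w, E w s ↔ (E w y ∨ w = y)
  separation : ∀ (φ : Fml) (v : ℕ → M) (x : M), ∃ y, ∀ z,
    E z y ↔ E z x ∧ Sat E φ (Function.update v 0 z)
  replacement : ∀ (φ : Fml) (v : ℕ → M) (x : M),
    (∀ z, E z x → ∃! y, Sat E φ (Function.update (Function.update v 0 z) 1 y)) →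
    ∃ w, ∀ y, E y w ↔ ∃ z, E z x ∧ Sat E φ (Function.update (Function.update v 0 z) 1 y)
  choice : ∀ x, (∀ y, E y x → ∃ z, E z y) →
    (∀ y y', E y x → E y' x → y ≠ y' → ∀ z, ¬ (E z y ∧ E z y')) →
    ∃ c, ∀ y, E y x → ∃! z, E z c ∧ E z y

end Pool.Agent.Lib.BVM
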