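import Pool.Agent.Lib.BVM.Basic
import Pool.Agent.Lib.BVM.ZFC

/-!
The quotient of the Boolean valued universe by an ultrafilter is a model of ZFC.
-/

open Set Classical

namespace Pool.Agent.Lib.BVM

variable {B : Type} [CompleteBooleanAlgebra B]

open bSet

/-- The equivalence of names modulo an ultrafilter. -/
def bsetoid (U : Ultra B) : Setoid (bSet B) where
  r x y := beq x y ∈ U
  iseqv := {
    refl := fun x => by rw [beq_refl]; exact Ultra.top
    symm := fun {x y} h => by rw [beq_symm]; exact h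
    trans := fun {x y z} h h' => Ultra.mono (Ultra.inf_iff.2 ⟨h, h'⟩) (beq_trans x y z) }

/-- The model. -/
def Mod (U : Ultra B) : Type 1 := Quotient (bsetoid U)

/-- The class of a name. -/
def q (U : Ultra B) (x : bSet B) : Mod U := Quotient.mk (bsetoid U) x

theorem q_eq {U : Ultra B} {x y : bSet B} : q U x = q U y ↔ beq x y ∈ U :=
  Quotient.eq (r := bsetoid U)

theorem q_surj {U : Ultra B} (m : Mod U) : ∃ x, q U x = m := Quotient.exists_rep m

/-- The membership relation of the model. -/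
def E (U : Ultra B) : Mod U → Mod U → Prop :=
  Quotient.lift₂ (fun x y => bmem x y ∈ U) (by
    intro x y x' y' hx hy
    have hx : beq x x' ∈ U := hx
    have hy : beq y y' ∈ U := hy
    refine propext ⟨fun h => ?_, fun h => ?_⟩
    · refine Ultra.mono (Ultra.inf_iff.2 ⟨hy, ?_⟩) (bmem_congr_right x' y y')
      exact Ultra.mono (Ultra.inf_iff.2 ⟨hx, h⟩) (bmem_congr_left x x' y)
    · rw [beq_symm] at hx hy
      refine Ultra.mono (Ultra.inf_iff.2 ⟨hy, ?_⟩) (bmem_congr_right x y' y)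
      exact Ultra.mono (Ultra.inf_iff.2 ⟨hx, h⟩) (bmem_congr_left x' x y'))

theorem E_q {U : Ultra B} {x y : bSet B} : E U (q U x) (q U y) ↔ bmem x y ∈ U := Iff.rfl

/-- Łoś theorem for an existential quantifier. -/
theorem los_ex {P : ∀ U : Ultra B, Mod U → Prop} {b : bSet B → B}
    (h : ∀ x U, P U (q U x) ↔ b x ∈ U) (U : Ultra B) :
    (∃ m, P U m) ↔ (⨆ x, b x) ∈ U := by
  constructor
  · rintro ⟨m, hm⟩
    obtain ⟨x, rfl⟩ := q_surj m
    exact Ultra.mono ((h x U).1 hm) (le_iSup b x)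
  · intro hb
    obtain ⟨x, hx⟩ := exists_max b (fun x y => Ultra.le_of_forall fun U hU => by
      obtain ⟨h1, h2⟩ := Ultra.inf_iff.1 hU
      rw [← h, ← q_eq.2 h1]
      exact (h x U).2 h2)
    exact ⟨q U x, (h x U).2 (Ultra.mono hb hx)⟩

theorem los_all {P : ∀ U : Ultra B, Mod U → Prop} {b : bSet B → B}
    (h : ∀ x U, P U (q U x) ↔ b x ∈ U) (U : Ultra B) :
    (∀ m, P U m) ↔ (⨅ x, b x) ∈ U := by
  have h1 := los_ex (P := fun U m => ¬ P U m) (b := fun x => (b x)ᶜ)
    (fun x U => by rw [h, Ultra.not_iff]) U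
  rw [← not_iff_not, not_forall, h1, ← compl_iInf, Ultra.not_iff]

/-! ### Boolean valued predicates -/

/-- `P` has a Boolean value. -/
def BV (P : Ultra B → Prop) : Prop := ∃ b : B, ∀ U, P U ↔ b ∈ U

/-- The Boolean value. -/
noncomputable def bv (P : Ultra B → Prop) : B := if h : BV P then h.choose else ⊥

theorem BV.iff {P : Ultra B → Prop} (h : BV P) (U : Ultra B) : P U ↔ bv P ∈ U := by
  unfold bv
  rw [dif_pos h]
  exact h.choose_spec U

theorem BV.of_mem (b : B) : BV (fun U : Ultra B => b ∈ U) := ⟨b, fun _ => Iff.rfl⟩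

theorem BV.mem (x y : bSet B) : BV (fun U => E U (q U x) (q U y)) := ⟨bmem x y, fun _ => E_q⟩

theorem BV.eq (x y : bSet B) : BV (fun U => q U x = q U y) := ⟨beq x y, fun _ => q_eq⟩

theorem BV.const (p : Prop) : BV (fun _ : Ultra B => p) := by
  by_cases h : p
  · exact ⟨⊤, fun U => ⟨fun _ => Ultra.top, fun _ => h⟩⟩
  · exact ⟨⊥, fun U => ⟨fun h' => absurd h' h, fun h' => absurd h' Ultra.bot⟩⟩

theorem BV.not {P : Ultra B → Prop} (h : BV P) : BV (fun U => ¬ P U) := by
  obtain ⟨b, hb⟩ := h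
  exact ⟨bᶜ, fun U => (not_congr (hb U)).trans Ultra.not_iff.symm⟩

theorem BV.and {P Q : Ultra B → Prop} (h : BV P) (h' : BV Q) : BV (fun U => P U ∧ Q U) := by
  obtain ⟨b, hb⟩ := h
  obtain ⟨c, hc⟩ := h'
  exact ⟨b ⊓ c, fun U => (and_congr (hb U) (hc U)).trans Ultra.inf_iff.symm⟩

theorem BV.or {P Q : Ultra B → Prop} (h : BV P) (h' : BV Q) : BV (fun U => P U ∨ Q U) := by
  obtain ⟨b, hb⟩ := h
  obtain ⟨c, hc⟩ := h'
  exact ⟨b ⊔ c, fun U => (or_congr (hb U) (hc U)).trans Ultra.sup_iff.symm⟩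

theorem BV.imp {P Q : Ultra B → Prop} (h : BV P) (h' : BV Q) : BV (fun U => P U → Q U) := by
  obtain ⟨b, hb⟩ := h
  obtain ⟨c, hc⟩ := h'
  exact ⟨b ⇨ c, fun U => (imp_congr (hb U) (hc U)).trans Ultra.himp_iff.symm⟩

theorem BV.biimp {P Q : Ultra B → Prop} (h : BV P) (h' : BV Q) : BV (fun U => P U ↔ Q U) := by
  obtain ⟨b, hb⟩ := (h.imp h').and (h'.imp h)
  exact ⟨b, fun U => by rw [← hb]; exact iff_iff_implies_and_implies⟩

theorem BV.ex {P : ∀ U : Ultra B, Mod U → Prop} (h : ∀ x, BV (fun U => P U (q U x))) :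
    BV (fun U => ∃ m, P U m) :=
  ⟨_, los_ex (b := fun x => bv (fun U => P U (q U x))) fun x U => (h x).iff U⟩

theorem BV.all {P : ∀ U : Ultra B, Mod U → Prop} (h : ∀ x, BV (fun U => P U (q U x))) :
    BV (fun U => ∀ m, P U m) :=
  ⟨_, los_all (b := fun x => bv (fun U => P U (q U x))) fun x U => (h x).iff U⟩

theorem BV.exUnique {P : ∀ U : Ultra B, Mod U → Prop} (h : ∀ x, BV (fun U => P U (q U x))) :
    BV (fun U => ∃! m, P U m) :=
  BV.ex fun x => (h x).and (BV.all fun y => (h y).imp (BV.eq y x))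

theorem BV.sat (φ : Fml) : ∀ v : ℕ → bSet B, BV (fun U => Sat (E U) φ (fun i => q U (v i))) := by
  induction φ with
  | mem i j => exact fun v => BV.mem (v i) (v j)
  | eq i j => exact fun v => BV.eq (v i) (v j)
  | neg φ ih => exact fun v => (ih v).not
  | and φ ψ ih1 ih2 => exact fun v => (ih1 v).and (ih2 v)
  | all i φ ih =>
    intro v
    refine BV.all (P := fun U m => Sat (E U) φ (Function.update (fun i => q U (v i)) i m))
      fun x => ?_
    have h : ∀ U : Ultra B, Function.update (fun i => q U (v i)) i (q U x) =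
        fun j => q U (Function.update v i x j) := by
      intro U
      funext j
      by_cases hj : j = i
      · subst hj; simp
      · simp [hj]
    simp only [h]
    exact ih _

theorem BV.sat1 (φ : Fml) (v : ℕ → bSet B) (x : bSet B) :
    BV (fun U => Sat (E U) φ (Function.update (fun i => q U (v i)) 0 (q U x))) := by
  have h : ∀ U : Ultra B, Function.update (fun i => q U (v i)) 0 (q U x) =
      fun j => q U (Function.update v 0 x j) := by
    intro U
    funext j
    by_cases hj : j = 0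
    · subst hj; simp
    · simp [hj]
  simp only [h]
  exact BV.sat φ _

theorem BV.sat2 (φ : Fml) (v : ℕ → bSet B) (x y : bSet B) :
    BV (fun U => Sat (E U) φ (Function.update (Function.update (fun i => q U (v i)) 0 (q U x)) 1
      (q U y))) := by
  have h : ∀ U : Ultra B, Function.update (Function.update (fun i => q U (v i)) 0 (q U x)) 1
      (q U y) = fun j => q U (Function.update (Function.update v 0 x) 1 y j) := by
    intro U
    funext j
    by_cases hj : j = 1
    · subst hj; simp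
    · by_cases hj0 : j = 0
      · subst hj0; simp
      · simp [hj, hj0]
  simp only [h]
  exact BV.sat φ _

/-- Case analysis over a supremum; the ultrafilter changes. -/
theorem of_iSup {ι : Sort*} {t : ι → B} {P Q : Ultra B → Prop} (hP : BV P) (hQ : BV Q)
    (h : ∀ a U, t a ∈ U → Q U → P U) {U : Ultra B} (h1 : (⨆ a, t a) ∈ U) (h2 : Q U) : P U := by
  obtain ⟨b, hb⟩ := hP
  obtain ⟨c, hc⟩ := hQ
  rw [hb]
  refine Ultra.mono (Ultra.inf_iff.2 ⟨h1, (hc U).1 h2⟩) ?_
  rw [iSup_inf_eq]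
  refine iSup_le fun a => Ultra.le_of_forall fun U' hU' => ?_
  obtain ⟨h3, h4⟩ := Ultra.inf_iff.1 hU'
  exact (hb U').1 (h a U' h3 ((hc U').2 h4))

/-- Monotonicity of Boolean values. -/
theorem bv_mono {P Q : Ultra B → Prop} (hP : BV P) (hQ : BV Q) (h : ∀ U, P U → Q U) :
    bv P ≤ bv Q :=
  Ultra.le_of_forall fun U hU => (hQ.iff U).1 (h U ((hP.iff U).2 hU))

theorem le_bv {P : Ultra B → Prop} (hP : BV P) {b : B} (h : ∀ U, b ∈ U → P U) : b ≤ bv P :=
  Ultra.le_of_forall fun U hU => (hP.iff U).1 (h U hU)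

namespace bSet

/-- index type -/
def type : bSet B → Type
  | mk α _ _ => α

/-- elements -/
def func : (x : bSet B) → x.type → bSet B
  | mk _ A _ => A

/-- weights -/
def val : (x : bSet B) → x.type → B
  | mk _ _ w => w

omit [CompleteBooleanAlgebra B] in
theorem eta (x : bSet B) : mk x.type x.func x.val = x := by cases x; rfl

theorem le_bmem_func (x : bSet B) (a : x.type) : x.val a ≤ bmem (x.func a) x := by
  cases x; exact le_bmem_mk _ _ a

theorem bmem_eq (z x : bSet B) : bmem z x = ⨆ a, x.val a ⊓ beq z (x.func a) := by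
  cases x; rfl

end bSet

/-- Bounded existential quantifier. -/
theorem los_bex {P : ∀ U : Ultra B, Mod U → Prop} {b : bSet B → B}
    (h : ∀ x U, P U (q U x) ↔ b x ∈ U) (X : bSet B) (U : Ultra B) :
    (∃ m, E U m (q U X) ∧ P U m) ↔ (⨆ a, X.val a ⊓ b (X.func a)) ∈ U := by
  rw [los_ex (P := fun U m => E U m (q U X) ∧ P U m) (b := fun x => bmem x X ⊓ b x)
    (fun x U => by rw [Ultra.inf_iff, h, E_q])]
  have h1 : (⨆ x, bmem x X ⊓ b x) = ⨆ a, X.val a ⊓ b (X.func a) := by
    apply le_antisymm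
    · refine iSup_le fun x => ?_
      rw [bmem_eq, iSup_inf_eq]
      refine iSup_mono fun a => Ultra.le_of_forall fun U hU => ?_
      obtain ⟨h1, h2⟩ := Ultra.inf_iff.1 hU
      obtain ⟨h3, h4⟩ := Ultra.inf_iff.1 h1
      refine Ultra.inf_iff.2 ⟨h3, ?_⟩
      rw [← h, ← q_eq.2 h4]
      exact (h x U).2 h2
    · exact iSup_le fun a => le_iSup_of_le (X.func a) (inf_le_inf_right _ (le_bmem_func X a))
  rw [h1]

theorem los_ball {P : ∀ U : Ultra B, Mod U → Prop} {b : bSet B → B}
    (h : ∀ x U, P U (q U x) ↔ b x ∈ U) (X : bSet B) (U : Ultra B) :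
    (∀ m, E U m (q U X) → P U m) ↔ (⨅ a, X.val a ⇨ b (X.func a)) ∈ U := by
  have h1 := los_bex (P := fun U m => ¬ P U m) (b := fun x => (b x)ᶜ)
    (fun x U => by rw [h, Ultra.not_iff]) X U
  rw [← not_iff_not]
  have h2 : (⨅ a, X.val a ⇨ b (X.func a))ᶜ = ⨆ a, X.val a ⊓ (b (X.func a))ᶜ := by
    rw [compl_iInf]
    congr 1
    funext a
    rw [himp_eq, compl_sup, compl_compl, inf_comm]
  rw [← Ultra.not_iff, h2, ← h1]
  push Not
  rfl

/-- Membership in an explicit name. -/
theorem E_mk {U : Ultra B} {α : Type} {A : α → bSet B} {w : α → B} {z : bSet B} :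
    E U (q U z) (q U (mk α A w)) ↔ (⨆ a, w a ⊓ beq z (A a)) ∈ U := Iff.rfl

theorem E_func {U : Ultra B} {X : bSet B} (a : X.type) (h : X.val a ∈ U) :
    E U (q U (X.func a)) (q U X) := by
  rw [E_q]
  exact Ultra.mono h (le_bmem_func X a)

/-- Case analysis over an element of a name. -/
theorem of_mem {X Z : bSet B} {P Q : Ultra B → Prop} (hP : BV P) (hQ : BV Q)
    (h : ∀ a U, X.val a ∈ U → q U Z = q U (X.func a) → Q U → P U) {U : Ultra B}
    (h1 : E U (q U Z) (q U X)) (h2 : Q U) : P U := by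
  rw [E_q, bmem_eq] at h1
  refine of_iSup hP hQ (fun a U ht hQ' => ?_) h1 h2
  obtain ⟨h3, h4⟩ := Ultra.inf_iff.1 ht
  exact h a U h3 (q_eq.2 h4) hQ'

theorem ext_mod (U : Ultra B) (x y : Mod U) (h : ∀ z, E U z x ↔ E U z y) : x = y := by
  obtain ⟨X, rfl⟩ := q_surj x
  obtain ⟨Y, rfl⟩ := q_surj y
  rw [q_eq]
  have h1 : (⨅ z, (bmem z X ⇨ bmem z Y) ⊓ (bmem z Y ⇨ bmem z X)) ∈ U := by
    rw [← los_all (P := fun U z => (E U z (q U X) → E U z (q U Y)) ∧
      (E U z (q U Y) → E U z (q U X)))]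
    · exact fun z => ⟨(h z).1, (h z).2⟩
    · intro z U
      rw [Ultra.inf_iff, Ultra.himp_iff, Ultra.himp_iff]
      rfl
  refine Ultra.mono h1 ?_
  obtain ⟨α, A, w⟩ := X
  obtain ⟨α', A', w'⟩ := Y
  refine le_beq_mk (fun a => ?_) (fun a => ?_)
  · refine le_trans (inf_le_inf_left _ (le_bmem_mk A w a)) ?_
    rw [← le_himp_iff]
    exact (iInf_le _ (A a)).trans inf_le_left
  · refine le_trans (inf_le_inf_left _ (le_bmem_mk A' w' a)) ?_
    rw [← le_himp_iff]
    exact (iInf_le _ (A' a)).trans inf_le_right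

/-- Separation. -/
theorem exists_sep {P : ∀ U : Ultra B, Mod U → Prop} (h : ∀ x, BV (fun U => P U (q U x)))
    (X : bSet B) : ∃ Y : bSet B, ∀ U m, E U m (q U Y) ↔ E U m (q U X) ∧ P U m := by
  refine ⟨mk X.type X.func (fun a => X.val a ⊓ bv (fun U => P U (q U (X.func a)))), fun U m => ?_⟩
  obtain ⟨Z, rfl⟩ := q_surj m
  have h1 := los_bex (P := fun U m => P U m ∧ q U Z = m)
    (b := fun x => bv (fun U => P U (q U x)) ⊓ beq Z x)
    (fun x U => by rw [Ultra.inf_iff, ← (h x).iff U, q_eq]) X U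
  rw [E_mk]
  simp only [inf_assoc]
  rw [← h1]
  constructor
  · rintro ⟨m, h2, h3, rfl⟩
    exact ⟨h2, h3⟩
  · rintro ⟨h2, h3⟩
    exact ⟨_, h2, h3, rfl⟩

/-- Collection. -/
theorem exists_coll {P : ∀ U : Ultra B, Mod U → Mod U → Prop}
    (h : ∀ x y, BV (fun U => P U (q U x) (q U y))) (X : bSet B) :
    ∃ Y : bSet B, ∀ U m, E U m (q U X) → (∃ y, P U m y) → ∃ y, E U y (q U Y) ∧ P U m y := by
  have hmax : ∀ a : X.type, ∃ y : bSet B, ∀ U, (∃ m, P U (q U (X.func a)) m) →
      P U (q U (X.func a)) (q U y) := by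
    intro a
    obtain ⟨y, hy⟩ := exists_max (fun y => bv (fun U => P U (q U (X.func a)) (q U y)))
      (fun x y => Ultra.le_of_forall fun U hU => by
        obtain ⟨h1, h2⟩ := Ultra.inf_iff.1 hU
        rw [← (h _ y).iff U, ← q_eq.2 h1]
        exact ((h _ x).iff U).2 h2)
    refine ⟨y, fun U hex => ?_⟩
    rw [los_ex (P := fun U m => P U (q U (X.func a)) m) (fun x U => (h _ x).iff U)] at hex
    exact ((h _ y).iff U).2 (Ultra.mono hex hy)
  choose y hy using hmax
  refine ⟨mk X.type y (fun _ => ⊤), fun U m h1 h2 => ?_⟩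
  obtain ⟨Z, rfl⟩ := q_surj m
  refine of_mem (P := fun U => ∃ y', E U y' (q U (mk X.type y (fun _ => ⊤))) ∧ P U (q U Z) y')
    (Q := fun U => ∃ y', P U (q U Z) y') (BV.ex fun y' => (BV.mem _ _).and (h _ _))
    (BV.ex fun y' => h _ _) (fun a U _ hZ hex => ?_) h1 h2
  refine ⟨q U (y a), Ultra.mono Ultra.top (le_bmem_mk y (fun _ => ⊤) a), ?_⟩
  rw [hZ] at hex ⊢
  exact hy a U hex

/-- `x ∪ {y}` -/
def bSet.ins (y x : bSet B) : bSet B :=
  mk (Option x.type) (fun o => o.elim y x.func) (fun o => o.elim ⊤ x.val)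

theorem E_ins {U : Ultra B} {y x : bSet B} (m : Mod U) :
    E U m (q U (bSet.ins y x)) ↔ E U m (q U x) ∨ m = q U y := by
  obtain ⟨Z, rfl⟩ := q_surj m
  unfold bSet.ins
  rw [E_mk, iSup_option, Ultra.sup_iff]
  simp only [Option.elim]
  rw [top_inf_eq, E_q, bmem_eq, q_eq, or_comm]

/-- the empty name -/
def bSet.emp : bSet B := mk Empty (fun e => e.elim) (fun e => e.elim)

theorem E_emp {U : Ultra B} (m : Mod U) : ¬ E U m (q U bSet.emp) := by
  obtain ⟨Z, rfl⟩ := q_surj m
  unfold bSet.emp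
  rw [E_mk, iSup_of_empty]
  exact Ultra.bot

/-- numerals -/
def num : ℕ → bSet B
  | 0 => bSet.emp
  | n + 1 => bSet.ins (num n) (num n)

/-- the set of natural numbers -/
def omega : bSet B := mk ℕ num (fun _ => ⊤)

theorem E_num_omega (U : Ultra B) (n : ℕ) : E U (q U (num n)) (q U omega) :=
  Ultra.mono Ultra.top (le_bmem_mk (num (B := B)) (fun _ => ⊤) n)

/-- Quantification over natural numbers. -/
theorem of_mem_omega {Z : bSet B} {P Q : Ultra B → Prop} (hP : BV P) (hQ : BV Q)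
    (h : ∀ n U, q U Z = q U (num n) → Q U → P U) {U : Ultra B}
    (h1 : E U (q U Z) (q U omega)) (h2 : Q U) : P U :=
  of_mem (X := omega) hP hQ (fun n U _ => h n U) h1 h2

theorem ball_omega {P : ∀ U : Ultra B, Mod U → Prop} (h : ∀ x, BV (fun U => P U (q U x)))
    (hn : ∀ n U, P U (q U (num n))) (U : Ultra B) (m : Mod U) (hm : E U m (q U omega)) :
    P U m := by
  obtain ⟨Z, rfl⟩ := q_surj m
  refine of_mem_omega (h Z) (BV.const True) (fun n U hZ _ => ?_) hm trivial
  rw [hZ]
  exact hn n U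

theorem foundation_aux (X : bSet B) : ∀ Y : bSet B, ∀ U : Ultra B,
    (∀ y, E U y (q U X) → ∃ z, E U z y ∧ E U z (q U X)) → ¬ E U (q U Y) (q U X) := by
  intro Y
  induction Y with
  | mk α A w ih =>
    intro U h1 h2
    obtain ⟨z, hz1, hz2⟩ := h1 _ h2
    obtain ⟨Z, rfl⟩ := q_surj z
    have hQ : BV (fun U : Ultra B => (∀ y, E U y (q U X) → ∃ z, E U z y ∧ E U z (q U X)) ∧
        E U (q U Z) (q U X)) :=
      (BV.all (P := fun U y => E U y (q U X) → ∃ z, E U z y ∧ E U z (q U X)) fun y =>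
        (BV.mem _ _).imp (BV.ex (P := fun U z => E U z (q U y) ∧ E U z (q U X)) fun z =>
          (BV.mem _ _).and (BV.mem _ _))).and (BV.mem _ _)
    refine of_mem (P := fun _ => False) (BV.const False) hQ (fun a U _ hZ hh => ?_) hz1 ⟨h1, hz2⟩
    refine ih a U hh.1 ?_
    have := hh.2
    rw [hZ] at this
    exact this

/-- The quotient is a model of ZFC. -/
theorem modelZFC (U : Ultra B) : ModelZFC (Mod U) (E U) where
  ext := ext_mod U
  foundation := by
    intro x hx
    obtain ⟨X, rfl⟩ := q_surj x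
    by_contra hcon
    push Not at hcon
    obtain ⟨y, hy⟩ := hx
    obtain ⟨Y, rfl⟩ := q_surj y
    exact foundation_aux X Y U hcon hy
  pairing := by
    intro x y
    obtain ⟨X, rfl⟩ := q_surj x
    obtain ⟨Y, rfl⟩ := q_surj y
    refine ⟨q U (bSet.ins Y (bSet.ins X bSet.emp)), fun w => ?_⟩
    rw [E_ins, E_ins]
    have := E_emp w
    tauto
  union := by
    intro x
    obtain ⟨X, rfl⟩ := q_surj x
    refine ⟨q U (mk (Σ a : X.type, (X.func a).type) (fun p => (X.func p.1).func p.2)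
      (fun p => X.val p.1 ⊓ (X.func p.1).val p.2)), fun z => ?_⟩
    obtain ⟨Z, rfl⟩ := q_surj z
    rw [E_mk]
    rw [los_bex (P := fun U w => E U (q U Z) w) (b := fun w => bmem Z w) (fun x U => E_q)]
    rw [iSup_sigma]
    have h1 : ∀ a, X.val a ⊓ bmem Z (X.func a) =
        ⨆ c, X.val a ⊓ (X.func a).val c ⊓ beq Z ((X.func a).func c) := by
      intro a
      rw [bmem_eq, inf_iSup_eq]
      simp only [inf_assoc]
    simp only [h1]
  power := by
    intro x
    obtain ⟨X, rfl⟩ := q_surj x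
    refine ⟨q U (mk (X.type → B) (fun f => mk X.type X.func (fun a => X.val a ⊓ f a))
      (fun _ => ⊤)), fun z => ?_⟩
    obtain ⟨Z, rfl⟩ := q_surj z
    constructor
    · intro h w hw
      obtain ⟨W, rfl⟩ := q_surj w
      refine of_mem (P := fun U => E U (q U W) (q U X)) (Q := fun U => E U (q U W) (q U Z))
        (BV.mem _ _) (BV.mem _ _) (fun f U _ hZ hW => ?_) h hw
      rw [hZ] at hW
      have hW' : (⨆ a, X.val a ⊓ f a ⊓ beq W (X.func a)) ∈ U := hW
      rw [E_q, bmem_eq]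
      exact Ultra.mono hW' (iSup_mono fun a => inf_le_inf_right _ inf_le_left)
    · intro h
      have h2 : q U Z = q U (mk X.type X.func (fun a => X.val a ⊓ bmem (X.func a) Z)) := by
        apply ext_mod
        intro w
        obtain ⟨W, rfl⟩ := q_surj w
        have h1 := los_bex (P := fun U m => E U m (q U Z) ∧ q U W = m)
          (b := fun x => bmem x Z ⊓ beq W x)
          (fun x U => by rw [Ultra.inf_iff, E_q, q_eq]) X U
        rw [E_mk]
        simp only [inf_assoc]
        rw [← h1]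
        constructor
        · intro h3
          exact ⟨_, h _ h3, h3, rfl⟩
        · rintro ⟨m, _, h3, rfl⟩
          exact h3
      rw [h2]
      exact Ultra.mono Ultra.top (le_bmem_mk (fun f : X.type → B =>
        mk X.type X.func (fun a => X.val a ⊓ f a)) (fun _ => ⊤) (fun a => bmem (X.func a) Z))
  infinity := by
    refine ⟨q U omega, ⟨q U (num 0), E_num_omega U 0, E_emp⟩, ?_⟩
    refine ball_omega (P := fun U y => ∃ s, E U s (q U omega) ∧ ∀ w, E U w s ↔ (E U w y ∨ w = y))
      (fun x => ?_) (fun n U => ?_) U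
    · refine BV.ex fun s => (BV.mem _ _).and (BV.all fun w => ?_)
      exact (BV.mem _ _).biimp ((BV.mem _ _).or (BV.eq _ _))
    · exact ⟨q U (num (n + 1)), E_num_omega U _, fun w => E_ins w⟩
  separation := by
    intro φ v x
    obtain ⟨X, rfl⟩ := q_surj x
    have hv : ∃ V : ℕ → bSet B, v = fun i => q U (V i) := by
      choose V hV using fun i => q_surj (v i)
      exact ⟨V, funext fun i => (hV i).symm⟩
    obtain ⟨V, rfl⟩ := hv
    obtain ⟨Y, hY⟩ := exists_sep
      (P := fun U m => Sat (E U) φ (Function.update (fun i => q U (V i)) 0 m))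
      (fun x => BV.sat1 φ V x) X
    exact ⟨q U Y, hY U⟩
  replacement := by
    intro φ v x hx
    obtain ⟨X, rfl⟩ := q_surj x
    have hv : ∃ V : ℕ → bSet B, v = fun i => q U (V i) := by
      choose V hV using fun i => q_surj (v i)
      exact ⟨V, funext fun i => (hV i).symm⟩
    obtain ⟨V, rfl⟩ := hv
    obtain ⟨Y, hY⟩ := exists_coll
      (P := fun U m y => Sat (E U) φ (Function.update (Function.update (fun i => q U (V i)) 0 m)
        1 y)) (fun x y => BV.sat2 φ V x y) X
    obtain ⟨W, hW⟩ := exists_sep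
      (P := fun U y => ∃ z, E U z (q U X) ∧
        Sat (E U) φ (Function.update (Function.update (fun i => q U (V i)) 0 z) 1 y))
      (fun y => BV.ex fun z => (BV.mem _ _).and (BV.sat2 φ V z y)) Y
    refine ⟨q U W, fun y => ?_⟩
    rw [hW]
    constructor
    · exact fun h => h.2
    · rintro ⟨z, hz, hs⟩
      refine ⟨?_, z, hz, hs⟩
      obtain ⟨y', hy', hs'⟩ := hY U z hz ⟨y, hs⟩
      rwa [(hx z hz).unique hs hs']
  choice := by
    intro x hne hdis
    obtain ⟨X, rfl⟩ := q_surj x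
    set r : X.type → X.type → Prop := WellOrderingRel with hr
    have hwo : IsWellOrder X.type r := WellOrderingRel.isWellOrder
    have hmax : ∀ a : X.type, ∃ y : bSet B, ∀ U, (∃ m, E U m (q U (X.func a))) →
        E U (q U y) (q U (X.func a)) := by
      intro a
      obtain ⟨y, hy⟩ := exists_max (fun y => bmem y (X.func a))
        (fun x y => bmem_congr_left x y _)
      refine ⟨y, fun U hex => ?_⟩
      rw [los_ex (P := fun U m => E U m (q U (X.func a))) (fun x U => E_q)] at hex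
      exact Ultra.mono hex hy
    choose y hy using hmax
    set w' : X.type → B := fun a => X.val a ⊓
      (⨆ a' : {a' // r a' a}, X.val a' ⊓ beq (X.func a') (X.func a))ᶜ with hw'
    refine ⟨q U (mk X.type y w'), fun m hm => ?_⟩
    obtain ⟨Y, rfl⟩ := q_surj m
    set C : bSet B := mk X.type y w' with hC
    have h1 : (⨆ a, w' a ⊓ beq Y (X.func a)) ∈ U := by
      rw [E_q, bmem_eq] at hm
      refine Ultra.mono hm (iSup_le fun a => ?_)
      refine hwo.wf.induction (C := fun a => X.val a ⊓ beq Y (X.func a) ≤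
        ⨆ a, w' a ⊓ beq Y (X.func a)) a (fun a ih => ?_)
      have h2 : X.val a ⊓ beq Y (X.func a) ≤ (w' a ⊓ beq Y (X.func a)) ⊔
          ⨆ a' : {a' // r a' a}, X.val a' ⊓ beq Y (X.func a') := by
        refine Ultra.le_of_forall fun U hU => ?_
        obtain ⟨h3, h4⟩ := Ultra.inf_iff.1 hU
        rw [Ultra.sup_iff, Ultra.inf_iff]
        by_cases h5 : w' a ∈ U
        · exact Or.inl ⟨h5, h4⟩
        · right
          rw [hw', Ultra.inf_iff, not_and, Ultra.not_iff, not_not] at h5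
          have h6 := h5 h3
          refine Ultra.mono (Ultra.inf_iff.2 ⟨h4, h6⟩) ?_
          rw [inf_iSup_eq]
          refine iSup_mono fun a' => ?_
          refine le_inf (inf_le_right.trans inf_le_left) ?_
          rw [beq_symm (X.func a')]
          exact (inf_le_inf_left _ inf_le_right).trans (beq_trans _ _ _)
      refine h2.trans (sup_le (le_iSup (fun a => w' a ⊓ beq Y (X.func a)) a) ?_)
      exact iSup_le fun a' => ih a'.1 a'.2
    set Q : Ultra B → Prop := fun U => (∀ y, E U y (q U X) → ∃ z, E U z y) ∧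
      (∀ y y', E U y (q U X) → E U y' (q U X) → y ≠ y' → ∀ z, ¬ (E U z y ∧ E U z y')) with hQ
    have hQBV : BV Q := by
      refine BV.and (BV.all (P := fun U y => E U y (q U X) → ∃ z, E U z y) fun y =>
        (BV.mem _ _).imp (BV.ex (P := fun U z => E U z (q U y)) fun z => BV.mem _ _)) ?_
      refine BV.all (P := fun U y => ∀ y', E U y (q U X) → E U y' (q U X) → y ≠ y' →
        ∀ z, ¬ (E U z y ∧ E U z y')) fun y => ?_
      refine BV.all (P := fun U y' => E U (q U y) (q U X) → E U y' (q U X) → q U y ≠ y' →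
        ∀ z, ¬ (E U z (q U y) ∧ E U z y')) fun y' => ?_
      refine (BV.mem _ _).imp ((BV.mem _ _).imp ((BV.eq _ _).not.imp ?_))
      exact BV.all (P := fun U z => ¬ (E U z (q U y) ∧ E U z (q U y'))) fun z =>
        ((BV.mem _ _).and (BV.mem _ _)).not
    refine of_iSup (t := fun a => w' a ⊓ beq Y (X.func a))
      (P := fun U => ∃! z, E U z (q U C) ∧ E U z (q U Y)) (Q := Q)
      (BV.exUnique fun z => (BV.mem _ _).and (BV.mem _ _)) hQBV (fun a U ha hQU => ?_) h1
      ⟨hne, hdis⟩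
    obtain ⟨ha1, ha2⟩ := Ultra.inf_iff.1 ha
    have hYa : q U Y = q U (X.func a) := q_eq.2 ha2
    have haX : E U (q U (X.func a)) (q U X) := E_func a (Ultra.inf_iff.1 ha1).1
    have hya : E U (q U (y a)) (q U (X.func a)) := hy a U (hQU.1 _ haX)
    refine ⟨q U (y a), ⟨Ultra.mono ha1 (le_bmem_mk y w' a), hYa ▸ hya⟩, ?_⟩
    rintro z ⟨hz1, hz2⟩
    obtain ⟨Z, rfl⟩ := q_surj z
    refine of_mem (X := C) (Z := Z) (P := fun U => q U Z = q U (y a))
      (Q := fun U => Q U ∧ w' a ∈ U ∧ E U (q U Z) (q U (X.func a)))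
      (BV.eq _ _) (hQBV.and ((BV.of_mem _).and (BV.mem _ _))) (fun a' U ha' hZ hh => ?_) hz1
      ⟨hQU, ha1, hYa ▸ hz2⟩
    obtain ⟨hQU, ha1, hZa⟩ := hh
    have ha' : w' a' ∈ U := ha'
    have hZ : q U Z = q U (y a') := hZ
    have haX : E U (q U (X.func a)) (q U X) := E_func a (Ultra.inf_iff.1 ha1).1
    have haX' : E U (q U (X.func a')) (q U X) := E_func (X := X) a' (Ultra.inf_iff.1 ha').1
    have hya' : E U (q U Z) (q U (X.func a')) := hZ ▸ hy a' U (hQU.1 _ haX')
    have haa : q U (X.func a) = q U (X.func a') := by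
      by_contra hne'
      exact hQU.2 _ _ haX haX' hne' _ ⟨hZa, hya'⟩
    have key : ∀ b b' : X.type, r b b' → X.val b ∈ U → w' b' ∈ U →
        q U (X.func b) = q U (X.func b') → False := by
      intro b b' hbb hb hb' heq
      have h3 := (Ultra.inf_iff.1 hb').2
      rw [Ultra.not_iff] at h3
      apply h3
      refine Ultra.mono (Ultra.inf_iff.2 ⟨hb, q_eq.1 heq⟩) ?_
      exact le_iSup (fun a'' : {a'' // r a'' b'} => X.val a'' ⊓ beq (X.func a'') (X.func b'))
        ⟨b, hbb⟩
    rcases trichotomous_of r a a' with h | h | h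
    · exact (key a a' h (Ultra.inf_iff.1 ha1).1 ha' haa).elim
    · rw [h]; exact hZ
    · exact (key a' a h (Ultra.inf_iff.1 ha').1 ha1 haa.symm).elim

end Pool.Agent.Lib.BVM
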