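import Pool.Agent.Lib.BVM.Facts

/-!
Symmetric submodels of Boolean valued models: automorphisms of the algebra act on names;
hereditarily symmetric names give a transitive class of every quotient model.
-/

open Set Classical

namespace Pool.Agent.Lib.BVM

variable {B : Type} [CompleteBooleanAlgebra B]

open bSet

/-! ### The action on names -/

/-- Action of an automorphism on names. -/
def act (g : B ≃o B) : bSet B → bSet B
  | mk α A w => mk α (fun a => act g (A a)) (fun a => g (w a))

theorem act_mk (g : B ≃o B) {α : Type} (A : α → bSet B) (w : α → B) :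
    act g (mk α A w) = mk α (fun a => act g (A a)) (fun a => g (w a)) := rfl

theorem act_type (g : B ≃o B) (x : bSet B) : (act g x).type = x.type := by cases x; rfl

theorem act_refl (x : bSet B) : act (OrderIso.refl B) x = x := by
  induction x with
  | mk α A w ih =>
    rw [act_mk]
    congr 1
    funext a
    exact ih a

theorem act_trans (g h : B ≃o B) (x : bSet B) : act (g.trans h) x = act h (act g x) := by
  induction x with
  | mk α A w ih =>
    rw [act_mk, act_mk, act_mk]
    congr 1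
    funext a
    exact ih a

theorem act_symm_act (g : B ≃o B) (x : bSet B) : act g.symm (act g x) = x := by
  rw [← act_trans, OrderIso.self_trans_symm, act_refl]

theorem act_act_symm (g : B ≃o B) (x : bSet B) : act g (act g.symm x) = x := by
  rw [← act_trans, OrderIso.symm_trans_self, act_refl]

theorem map_himp' (g : B ≃o B) (a b : B) : g (a ⇨ b) = g a ⇨ g b := by
  rw [himp_eq, himp_eq, map_sup]
  congr 1
  exact map_compl g a

theorem map_compl' (g : B ≃o B) (a : B) : g aᶜ = (g a)ᶜ := map_compl g a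

theorem beq_act (g : B ≃o B) (x : bSet B) : ∀ y, beq (act g x) (act g y) = g (beq x y) := by
  induction x with
  | mk α A w ih =>
    rintro ⟨α', A', w'⟩
    rw [act_mk, act_mk, beq_mk, beq_mk, map_inf, OrderIso.map_iInf, OrderIso.map_iInf]
    congr 1
    · congr 1
      funext a
      rw [map_himp', OrderIso.map_iSup]
      congr 1
      congr 1
      funext a'
      rw [map_inf, ih]
    · congr 1
      funext a'
      rw [map_himp', OrderIso.map_iSup]
      congr 1
      congr 1
      funext a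
      rw [map_inf, ih]

theorem bmem_act (g : B ≃o B) (x y : bSet B) : bmem (act g x) (act g y) = g (bmem x y) := by
  cases y with
  | mk α A w =>
    rw [act_mk, bmem_mk, bmem_mk, OrderIso.map_iSup]
    congr 1
    funext a
    rw [map_inf, beq_act]

theorem bmem_congr_top {x x' y y' : bSet B} (h : beq x x' = ⊤) (h' : beq y y' = ⊤) :
    bmem x y = bmem x' y' := by
  apply Ultra.ext_of_forall
  intro U
  rw [← E_q, ← E_q, q_eq.2 (show beq x x' ∈ U by rw [h]; exact Ultra.top),
    q_eq.2 (show beq y y' ∈ U by rw [h']; exact Ultra.top)]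

theorem beq_congr_top {x x' y y' : bSet B} (h : beq x x' = ⊤) (h' : beq y y' = ⊤) :
    beq x y = beq x' y' := by
  apply Ultra.ext_of_forall
  intro U
  rw [← q_eq, ← q_eq, q_eq.2 (show beq x x' ∈ U by rw [h]; exact Ultra.top),
    q_eq.2 (show beq y y' ∈ U by rw [h']; exact Ultra.top)]

theorem beq_top_iff {x y : bSet B} : beq x y = ⊤ ↔ ∀ U : Ultra B, q U x = q U y :=
  ⟨fun h U => q_eq.2 (by rw [h]; exact Ultra.top),
    fun h => Ultra.eq_top_of_forall fun U => q_eq.1 (h U)⟩

/-! ### Symmetric systems -/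

/-- A group of automorphisms with a normal filter base of subgroups. -/
structure SymSys (B : Type) [CompleteBooleanAlgebra B] where
  /-- the group -/
  G : Set (B ≃o B)
  trans_mem : ∀ {g h}, g ∈ G → h ∈ G → g.trans h ∈ G
  symm_mem : ∀ {g}, g ∈ G → g.symm ∈ G
  /-- supports -/
  ι : Type
  /-- the automorphisms fixing a support -/
  Fix : ι → Set (B ≃o B)
  fix_sub : ∀ e, Fix e ⊆ G
  ne : Nonempty ι
  refl_mem : OrderIso.refl B ∈ G
  inter : ∀ e e', ∃ e'', Fix e'' ⊆ Fix e ∩ Fix e'
  conj : ∀ e, ∀ g ∈ G, ∃ e', ∀ h ∈ Fix e', (g.trans h).trans g.symm ∈ Fix e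

variable (S : SymSys B)

/-- Symmetric names. -/
def Symm (x : bSet B) : Prop := ∃ e, ∀ g ∈ S.Fix e, beq (act g x) x = ⊤

/-- Hereditarily symmetric names. -/
def HS : bSet B → Prop
  | mk α A w => Symm S (mk α A w) ∧ ∀ a, HS (A a)

variable {S}

theorem HS.symm {x : bSet B} (h : HS S x) : Symm S x := by
  cases x; exact h.1

theorem HS.func {x : bSet B} (h : HS S x) (a : x.type) : HS S (x.func a) := by
  cases x; exact h.2 a

theorem HS.mk' {x : bSet B} (h : Symm S x) (h' : ∀ a, HS S (x.func a)) : HS S x := by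
  cases x; exact ⟨h, h'⟩

theorem Symm.congr {x y : bSet B} (h : Symm S x) (hxy : beq x y = ⊤) : Symm S y := by
  obtain ⟨e, he⟩ := h
  refine ⟨e, fun g hg => ?_⟩
  have h1 := he g hg
  have h2 : beq (act g x) (act g y) = ⊤ := by rw [beq_act, hxy, map_top]
  rw [← beq_congr_top h2 hxy]
  exact h1

theorem Symm.act {x : bSet B} (h : Symm S x) {g : B ≃o B} (hg : g ∈ S.G) : Symm S (act g x) := by
  obtain ⟨e, he⟩ := h
  obtain ⟨e', he'⟩ := S.conj e g hg
  refine ⟨e', fun k hk => ?_⟩
  have h1 := he _ (he' k hk)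
  rw [act_trans, act_trans] at h1
  have h2 : beq (BVM.act g (BVM.act g.symm (BVM.act k (BVM.act g x)))) (BVM.act g x) = ⊤ := by
    rw [beq_act, h1, map_top]
  rwa [act_act_symm] at h2

theorem HS.act {x : bSet B} (h : HS S x) {g : B ≃o B} (hg : g ∈ S.G) : HS S (act g x) := by
  induction x with
  | mk α A w ih => exact ⟨h.1.act hg, fun a => ih a (h.2 a)⟩

variable (S)

/-- Boolean value of being in the symmetric submodel. -/
noncomputable def hsv (x : bSet B) : B := ⨆ y : {y : bSet B // HS S y}, beq x y.1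

/-- The class of elements of the symmetric submodel. -/
def InN (U : Ultra B) (m : Mod U) : Prop := ∃ x, q U x = m ∧ hsv S x ∈ U

variable {S}

theorem hsv_congr (x y : bSet B) : beq x y ⊓ hsv S x ≤ hsv S y := by
  unfold hsv
  rw [inf_iSup_eq]
  refine iSup_mono fun z => ?_
  rw [beq_symm x y]
  exact beq_trans _ _ _

theorem inN_q {U : Ultra B} {x : bSet B} : InN S U (q U x) ↔ hsv S x ∈ U := by
  constructor
  · rintro ⟨y, hy, h⟩
    exact Ultra.mono (Ultra.inf_iff.2 ⟨q_eq.1 hy, h⟩) (hsv_congr _ _)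
  · exact fun h => ⟨x, rfl, h⟩

theorem BV.inN (x : bSet B) : BV (fun U => InN S U (q U x)) := ⟨hsv S x, fun _ => inN_q⟩

theorem hsv_top {x : bSet B} (h : HS S x) : hsv S x = ⊤ := by
  rw [eq_top_iff, ← beq_refl x]
  exact le_iSup (fun y : {y : bSet B // HS S y} => beq x y.1) ⟨x, h⟩

theorem HS.inN {x : bSet B} (h : HS S x) (U : Ultra B) : InN S U (q U x) := by
  rw [inN_q, hsv_top h]
  exact Ultra.top

/-- Case analysis on an element of the symmetric submodel. -/
theorem of_inN {X : bSet B} {P Q : Ultra B → Prop} (hP : BV P) (hQ : BV Q)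
    (h : ∀ Y, HS S Y → ∀ U, q U X = q U Y → Q U → P U) {U : Ultra B}
    (h1 : InN S U (q U X)) (h2 : Q U) : P U := by
  rw [inN_q] at h1
  exact of_iSup hP hQ (fun a U ht hQ' => h a.1 a.2 U (q_eq.2 ht) hQ') h1 h2

theorem inN_trans {U : Ultra B} {m z : Mod U} (h : InN S U m) (hz : E U z m) : InN S U z := by
  obtain ⟨X, rfl⟩ := q_surj m
  obtain ⟨Z, rfl⟩ := q_surj z
  refine of_inN (X := X) (P := fun U => InN S U (q U Z)) (Q := fun U => E U (q U Z) (q U X))
    (BV.inN _) (BV.mem _ _) (fun Y hY U hXY hZ => ?_) h hz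
  rw [hXY] at hZ
  refine of_mem (X := Y) (P := fun U => InN S U (q U Z)) (Q := fun _ => True) (BV.inN _)
    (BV.const _) (fun a U _ hZa _ => ?_) hZ trivial
  rw [hZa]
  exact (hY.func a).inN U

/-- Existential quantifier over the symmetric submodel. -/
theorem los_exN {P : ∀ U : Ultra B, Mod U → Prop} {b : bSet B → B}
    (h : ∀ x U, P U (q U x) ↔ b x ∈ U) (U : Ultra B) :
    (∃ m, InN S U m ∧ P U m) ↔ (⨆ x : {x : bSet B // HS S x}, b x.1) ∈ U := by
  rw [los_ex (P := fun U m => InN S U m ∧ P U m) (b := fun x => hsv S x ⊓ b x)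
    (fun x U => by rw [Ultra.inf_iff, h, inN_q])]
  have h1 : (⨆ x, hsv S x ⊓ b x) = ⨆ x : {x : bSet B // HS S x}, b x.1 := by
    apply le_antisymm
    · refine iSup_le fun x => ?_
      unfold hsv
      rw [iSup_inf_eq]
      refine iSup_mono fun y => Ultra.le_of_forall fun U hU => ?_
      obtain ⟨h1, h2⟩ := Ultra.inf_iff.1 hU
      rw [← h, ← q_eq.2 h1]
      exact (h x U).2 h2
    · refine iSup_le fun x => le_iSup_of_le x.1 ?_
      rw [hsv_top x.2, top_inf_eq]
  rw [h1]

theorem los_allN {P : ∀ U : Ultra B, Mod U → Prop} {b : bSet B → B}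
    (h : ∀ x U, P U (q U x) ↔ b x ∈ U) (U : Ultra B) :
    (∀ m, InN S U m → P U m) ↔ (⨅ x : {x : bSet B // HS S x}, b x.1) ∈ U := by
  have h1 := los_exN (S := S) (P := fun U m => ¬ P U m) (b := fun x => (b x)ᶜ)
    (fun x U => by rw [h, Ultra.not_iff]) U
  rw [← not_iff_not]
  push Not
  rw [h1, ← compl_iInf, Ultra.not_iff]

theorem BV.exN {P : ∀ U : Ultra B, Mod U → Prop} (h : ∀ x, BV (fun U => P U (q U x))) :
    BV (fun U => ∃ m, InN S U m ∧ P U m) := BV.ex fun x => (BV.inN x).and (h x)

theorem BV.allN {P : ∀ U : Ultra B, Mod U → Prop} (h : ∀ x, BV (fun U => P U (q U x))) :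
    BV (fun U => ∀ m, InN S U m → P U m) := BV.all fun x => (BV.inN x).imp (h x)

end Pool.Agent.Lib.BVM
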