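import Pool.Agent.Lib.BVM.SymModel

/-!
Absoluteness of bounded notions between the symmetric submodel and the full model.
-/

open Set Classical

namespace Pool.Agent.Lib.BVM

variable {B : Type} [CompleteBooleanAlgebra B] {S : SymSys B} {U : Ultra B}

open bSet

/-- element of the symmetric submodel below a given element -/
def SMod.below {x : SMod S U} {z : Mod U} (h : E U z x.1) : SMod S U := ⟨z, inN_trans x.2 h⟩

theorem sval_inj {x y : SMod S U} : x.1 = y.1 ↔ x = y := ⟨fun h => Subtype.ext h, fun h => h ▸ rfl⟩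

theorem abs_upair {x y p : SMod S U} :
    IsUPair (SE S U) x y p ↔ IsUPair (E U) x.1 y.1 p.1 := by
  constructor
  · intro h z
    constructor
    · intro hz
      rcases (h ⟨z, inN_trans p.2 hz⟩).1 hz with h | h
      · exact Or.inl (sval_inj.2 h)
      · exact Or.inr (sval_inj.2 h)
    · rintro (rfl | rfl)
      · exact (h x).2 (Or.inl rfl)
      · exact (h y).2 (Or.inr rfl)
  · intro h z
    exact (h z.1).trans (or_congr sval_inj sval_inj)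

theorem abs_pair {x y p : SMod S U} :
    IsPair (SE S U) x y p ↔ IsPair (E U) x.1 y.1 p.1 := by
  constructor
  · rintro ⟨a, b, h1, h2, h3⟩
    exact ⟨a.1, b.1, abs_upair.1 h1, abs_upair.1 h2, abs_upair.1 h3⟩
  · rintro ⟨a, b, h1, h2, h3⟩
    have ha : E U a p.1 := (h3 a).2 (Or.inl rfl)
    have hb : E U b p.1 := (h3 b).2 (Or.inr rfl)
    exact ⟨⟨a, inN_trans p.2 ha⟩, ⟨b, inN_trans p.2 hb⟩, abs_upair.2 h1, abs_upair.2 h2,
      abs_upair.2 h3⟩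

theorem abs_app {f x y : SMod S U} : App (SE S U) f x y ↔ App (E U) f.1 x.1 y.1 := by
  constructor
  · rintro ⟨p, h1, h2⟩
    exact ⟨p.1, abs_pair.1 h1, h2⟩
  · rintro ⟨p, h1, h2⟩
    exact ⟨⟨p, inN_trans f.2 h2⟩, abs_pair.2 h1, h2⟩

theorem pair_inN {x y p : Mod U} (h : IsPair (E U) x y p) (hp : InN S U p) :
    InN S U x ∧ InN S U y := by
  obtain ⟨a, b, h1, h2, h3⟩ := h
  have ha := inN_trans hp ((h3 a).2 (Or.inl rfl))
  have hb := inN_trans hp ((h3 b).2 (Or.inr rfl))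
  exact ⟨inN_trans ha ((h1 x).2 (Or.inl rfl)), inN_trans hb ((h2 y).2 (Or.inr rfl))⟩

theorem app_inN {f x y : Mod U} (h : App (E U) f x y) (hf : InN S U f) :
    InN S U x ∧ InN S U y := by
  obtain ⟨p, h1, h2⟩ := h
  exact pair_inN h1 (inN_trans hf h2)

/-- bounded universal quantifier -/
theorem abs_ball {x : SMod S U} {P : SMod S U → Prop} {P' : Mod U → Prop}
    (h : ∀ z : SMod S U, P z ↔ P' z.1) :
    (∀ z, SE S U z x → P z) ↔ ∀ z, E U z x.1 → P' z :=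
  ⟨fun h1 z hz => (h ⟨z, inN_trans x.2 hz⟩).1 (h1 ⟨z, inN_trans x.2 hz⟩ hz),
    fun h1 z hz => (h z).2 (h1 z.1 hz)⟩

/-- bounded existential quantifier -/
theorem abs_bex {x : SMod S U} {P : SMod S U → Prop} {P' : Mod U → Prop}
    (h : ∀ z : SMod S U, P z ↔ P' z.1) :
    (∃ z, SE S U z x ∧ P z) ↔ ∃ z, E U z x.1 ∧ P' z :=
  ⟨fun ⟨z, hz, h1⟩ => ⟨z.1, hz, (h z).1 h1⟩,
    fun ⟨z, hz, h1⟩ => ⟨⟨z, inN_trans x.2 hz⟩, hz, (h ⟨z, _⟩).2 h1⟩⟩

theorem abs_funOn {f a : SMod S U} : IsFunOn (SE S U) f a ↔ IsFunOn (E U) f.1 a.1 := by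
  constructor
  · rintro ⟨h1, h2⟩
    refine ⟨fun p hp => ?_, fun x hx => ?_⟩
    · obtain ⟨x, y, hx, hxy⟩ := h1 ⟨p, inN_trans f.2 hp⟩ hp
      exact ⟨x.1, y.1, hx, abs_pair.1 hxy⟩
    · obtain ⟨y, hy, huniq⟩ := h2 ⟨x, inN_trans a.2 hx⟩ hx
      refine ⟨y.1, abs_app.1 hy, fun y' hy' => ?_⟩
      have hN := (app_inN hy' f.2).2
      exact sval_inj.2 (huniq ⟨y', hN⟩ (abs_app.2 hy'))
  · rintro ⟨h1, h2⟩
    refine ⟨fun p hp => ?_, fun x hx => ?_⟩
    · obtain ⟨x, y, hx, hxy⟩ := h1 p.1 hp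
      have hN := pair_inN hxy p.2
      exact ⟨⟨x, hN.1⟩, ⟨y, hN.2⟩, hx, abs_pair.2 hxy⟩
    · obtain ⟨y, hy, huniq⟩ := h2 x.1 hx
      have hN := (app_inN hy f.2).2
      exact ⟨⟨y, hN⟩, abs_app.2 hy, fun y' hy' => Subtype.ext (huniq y'.1 (abs_app.1 hy'))⟩

theorem abs_fun {f a b : SMod S U} : IsFun (SE S U) f a b ↔ IsFun (E U) f.1 a.1 b.1 := by
  refine and_congr abs_funOn ⟨fun h x y hxy => ?_, fun h x y hxy => h x.1 y.1 (abs_app.1 hxy)⟩
  have hN := app_inN hxy f.2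
  exact h ⟨x, hN.1⟩ ⟨y, hN.2⟩ (abs_app.2 hxy)

theorem abs_inductive {x : SMod S U} : IsInductive (SE S U) x ↔ IsInductive (E U) x.1 := by
  have hemp : ∀ e : SMod S U, IsEmp (SE S U) e ↔ IsEmp (E U) e.1 := fun e =>
    ⟨fun h z hz => h ⟨z, inN_trans e.2 hz⟩ hz, fun h z => h z.1⟩
  have hsucc : ∀ y s : SMod S U, IsSucc (SE S U) y s ↔ IsSucc (E U) y.1 s.1 := by
    intro y s
    constructor
    · intro h z
      constructor
      · intro hz
        exact ((h ⟨z, inN_trans s.2 hz⟩).1 hz).imp id (fun h => sval_inj.2 h)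
      · rintro (hz | rfl)
        · exact (h ⟨z, inN_trans y.2 hz⟩).2 (Or.inl hz)
        · exact (h y).2 (Or.inr rfl)
    · intro h z
      exact (h z.1).trans (or_congr Iff.rfl sval_inj)
  constructor
  · rintro ⟨⟨e, he, hex⟩, h2⟩
    refine ⟨⟨e.1, (hemp e).1 he, hex⟩, fun y hy => ?_⟩
    obtain ⟨s, hs, hsx⟩ := h2 ⟨y, inN_trans x.2 hy⟩ hy
    exact ⟨s.1, (hsucc _ _).1 hs, hsx⟩
  · rintro ⟨⟨e, he, hex⟩, h2⟩
    refine ⟨⟨⟨e, inN_trans x.2 hex⟩, (hemp _).2 he, hex⟩, fun y hy => ?_⟩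
    obtain ⟨s, hs, hsx⟩ := h2 y.1 hy
    exact ⟨⟨s, inN_trans x.2 hsx⟩, (hsucc _ _).2 hs, hsx⟩

/-- The set of natural numbers of the symmetric submodel. -/
def somega (S : SymSys B) (U : Ultra B) : SMod S U := ⟨q U omega, hs_omega.inN U⟩

theorem isOmega_somega : IsOmega (SE S U) (somega S U) := by
  have h := isOmega_omega U
  refine ⟨abs_inductive.2 h.1, fun x hx z hz => ?_⟩
  exact h.2 x.1 (abs_inductive.1 hx) z.1 hz

end Pool.Agent.Lib.BVM
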