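import Pool.Agent.Lib.BVM.SymZF2

/-!
The symmetric submodel is a model of ZF.
-/

open Set Classical

namespace Pool.Agent.Lib.BVM

variable {B : Type} [CompleteBooleanAlgebra B] {S : SymSys B}

open bSet

/-- pairing in the symmetric submodel -/
theorem pairN (U : Ultra B) (x y : Mod U) (hx : InN S U x) (hy : InN S U y) :
    ∃ z, InN S U z ∧ ∀ w, E U w z ↔ w = x ∨ w = y := by
  refine of_params (S := S) (P := fun U v => ∃ z, InN S U z ∧ ∀ w, E U w z ↔ w = v 0 ∨ w = v 1) 2
    (fun U v v' hv h => ?_) (fun V => ?_) (fun V hV U => ?_) U (fun i => if i = 0 then x else y)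
    (fun i _ => ?_)
  · simpa only [hv 0 (by norm_num), hv 1 (by norm_num)] using h
  · exact BV.exN fun z => BV.all fun w => (BV.mem w z).biimp ((BV.eq w (V 0)).or (BV.eq w (V 1)))
  · refine ⟨q U (bSet.ins (V 1) (bSet.ins (V 0) bSet.emp)),
      (hs_ins (hs_ins hs_emp (hV 0)) (hV 1)).inN U, fun w => ?_⟩
    rw [E_ins, E_ins]
    have := E_emp w
    tauto
  · by_cases h : i = 0 <;> simp [h, hx, hy]

theorem unionN (U : Ultra B) (x : Mod U) (hx : InN S U x) :
    ∃ y, InN S U y ∧ ∀ z, E U z y ↔ ∃ w, E U w x ∧ E U z w := by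
  refine of_params (S := S) (P := fun U v => ∃ y, InN S U y ∧
      ∀ z, E U z y ↔ ∃ w, E U w (v 0) ∧ E U z w) 1
    (fun U v v' hv h => ?_) (fun V => ?_) (fun V hV U => ?_) U (fun _ => x) (fun i _ => hx)
  · simpa only [hv 0 (by norm_num)] using h
  · exact BV.exN fun y => BV.all fun z => (BV.mem z y).biimp
      (BV.ex fun w => (BV.mem w (V 0)).and (BV.mem z w))
  · obtain ⟨Y, hY, h⟩ := exists_unionN (hV 0)
    exact ⟨q U Y, hY.inN U, fun z => h U z⟩

theorem powerN (U : Ultra B) (x : Mod U) (hx : InN S U x) :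
    ∃ y, InN S U y ∧ ∀ z, E U z y ↔ (InN S U z ∧ ∀ w, E U w z → E U w x) := by
  refine of_params (S := S) (P := fun U v => ∃ y, InN S U y ∧
      ∀ z, E U z y ↔ (InN S U z ∧ ∀ w, E U w z → E U w (v 0))) 1
    (fun U v v' hv h => ?_) (fun V => ?_) (fun V hV U => ?_) U (fun _ => x) (fun i _ => hx)
  · simpa only [hv 0 (by norm_num)] using h
  · exact BV.exN fun y => BV.all fun z => (BV.mem z y).biimp
      ((BV.inN z).and (BV.all fun w => (BV.mem w z).imp (BV.mem w (V 0))))
  · obtain ⟨Y, hY, h⟩ := exists_powN (hV 0)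
    exact ⟨q U Y, hY.inN U, fun z => h U z⟩

/-- Separation in the symmetric submodel, for formulas. -/
theorem sepN (U : Ultra B) (φ : Fml) (v : ℕ → Mod U) (hv : ∀ i, InN S U (v i)) (x : Mod U)
    (hx : InN S U x) :
    ∃ y, InN S U y ∧ ∀ z, E U z y ↔ E U z x ∧ SatN S U φ (Function.update v 0 z) := by
  have h1 := of_params (S := S) (P := fun U v => ∃ y, InN S U y ∧
      ∀ z, E U z y ↔ (E U z (v (φ.bd + 1)) ∧ SatN S U φ (Function.update v 0 z))) (φ.bd + 2)
    (fun U v v' hv h => ?_) (fun V => ?_) (fun V hV U => ?_) U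
    (fun i => if i = φ.bd + 1 then x else v i) (fun i _ => ?_)
  · obtain ⟨y, hy, h1⟩ := h1
    refine ⟨y, hy, fun z => ?_⟩
    rw [h1]
    simp only [if_true]
    refine and_congr Iff.rfl (SatN.congr fun i hi => ?_)
    by_cases h0 : i = 0
    · subst h0; simp
    · simp only [Function.update_of_ne h0]
      rw [if_neg (by omega)]
  · obtain ⟨y, hy, h1⟩ := h
    refine ⟨y, hy, fun z => ?_⟩
    rw [h1, hv _ (by omega)]
    refine and_congr Iff.rfl (SatN.congr fun i hi => ?_)
    by_cases h0 : i = 0
    · subst h0; simp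
    · simp only [Function.update_of_ne h0]
      exact hv i (by omega)
  · exact BV.exN fun y => BV.all fun z => (BV.mem z y).biimp
      ((BV.mem z _).and (BV.satN1 φ V z))
  · obtain ⟨Y, hY, h⟩ := exists_sepN (S := S)
      (P := fun U z => SatN S U φ (Function.update (fun i => q U (V i)) 0 z))
      (b := fun x => vl S φ (Function.update V 0 x)) (fun x U => by
        rw [update_q]; exact los_sat φ _ U) (by
        choose e he using fun i => (hV i).symm
        obtain ⟨e', he'⟩ := exists_fix (S := S) e φ.bd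
        refine ⟨e', fun g hg x => ?_⟩
        rw [← vl_act (S.fix_sub _ hg)]
        refine vl_congr fun i hi => ?_
        by_cases h0 : i = 0
        · subst h0; simp [beq_refl]
        · simp only [Function.update_of_ne h0]
          rw [beq_symm]
          exact he i g (he' i hi hg)) (hV (φ.bd + 1))
    exact ⟨q U Y, hY.inN U, fun z => h U z⟩
  · by_cases h : i = φ.bd + 1 <;> simp [h, hx, hv]

/-- Collection in the symmetric submodel. -/
theorem collN (U : Ultra B) (φ : Fml) (v : ℕ → Mod U) (hv : ∀ i, InN S U (v i)) (x : Mod U)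
    (hx : InN S U x) :
    ∃ y, InN S U y ∧ ∀ z, E U z x →
      (∃ w, InN S U w ∧ SatN S U φ (Function.update (Function.update v 0 z) 1 w)) →
      ∃ w, E U w y ∧ SatN S U φ (Function.update (Function.update v 0 z) 1 w) := by
  have hc : ∀ (U : Ultra B) (v v' : ℕ → Mod U), (∀ i < φ.bd, v i = v' i) → ∀ z w,
      (SatN S U φ (Function.update (Function.update v 0 z) 1 w) ↔
        SatN S U φ (Function.update (Function.update v' 0 z) 1 w)) := by
    intro U v v' h z w
    refine SatN.congr fun i hi => ?_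
    by_cases h1 : i = 1
    · subst h1; simp
    · simp only [Function.update_of_ne h1]
      by_cases h0 : i = 0
      · subst h0; simp
      · simp only [Function.update_of_ne h0]
        exact h i hi
  have h1 := of_params (S := S) (P := fun U v => ∃ y, InN S U y ∧ ∀ z, E U z (v (φ.bd + 1)) →
      (∃ w, InN S U w ∧ SatN S U φ (Function.update (Function.update v 0 z) 1 w)) →
      ∃ w, E U w y ∧ SatN S U φ (Function.update (Function.update v 0 z) 1 w)) (φ.bd + 2)
    (fun U v v' hv h => ?_) (fun V => ?_) (fun V hV U => ?_) U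
    (fun i => if i = φ.bd + 1 then x else v i) (fun i _ => ?_)
  · obtain ⟨y, hy, h1⟩ := h1
    refine ⟨y, hy, fun z hz hw => ?_⟩
    have hcc := hc U (fun i => if i = φ.bd + 1 then x else v i) v (fun i hi => by
      rw [if_neg (by omega)])
    simp only [hcc, if_true] at h1
    exact h1 z hz hw
  · obtain ⟨y, hy, h1⟩ := h
    refine ⟨y, hy, fun z hz hw => ?_⟩
    have hcc := hc U v v' (fun i hi => hv i (by omega))
    simp only [hcc, hv (φ.bd + 1) (by omega)] at h1
    exact h1 z hz hw
  · exact BV.exN fun y => BV.all fun z => (BV.mem z _).imp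
      ((BV.exN fun w => BV.satN2 φ V z w).imp (BV.ex fun w => (BV.mem _ _).and
        (BV.satN2 φ V z w)))
  · obtain ⟨Y, hY, h⟩ := exists_collN (S := S)
      (P := fun U z w => SatN S U φ (Function.update (Function.update (fun i => q U (V i)) 0 z)
        1 w))
      (b := fun x y => vl S φ (Function.update (Function.update V 0 x) 1 y)) (fun x y U => by
        rw [update_q, update_q]; exact los_sat φ _ U) (X := V (φ.bd + 1))
    exact ⟨q U Y, hY.inN U, fun z hz hw => h U z hz hw⟩
  · by_cases h : i = φ.bd + 1 <;> simp [h, hx, hv]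

/-- Separation in the symmetric submodel for an existential of a formula. -/
theorem sepExN (U : Ultra B) (φ : Fml) (v : ℕ → Mod U) (hv : ∀ i, InN S U (v i)) (x y : Mod U)
    (hx : InN S U x) (hy : InN S U y) :
    ∃ y', InN S U y' ∧ ∀ w, E U w y' ↔ E U w y ∧ ∃ z, E U z x ∧
      SatN S U φ (Function.update (Function.update v 0 z) 1 w) := by
  have hc : ∀ (U : Ultra B) (v v' : ℕ → Mod U), (∀ i < φ.bd, v i = v' i) → ∀ z w,
      (SatN S U φ (Function.update (Function.update v 0 z) 1 w) ↔
        SatN S U φ (Function.update (Function.update v' 0 z) 1 w)) := by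
    intro U v v' h z w
    refine SatN.congr fun i hi => ?_
    by_cases h1 : i = 1
    · subst h1; simp
    · simp only [Function.update_of_ne h1]
      by_cases h0 : i = 0
      · subst h0; simp
      · simp only [Function.update_of_ne h0]
        exact h i hi
  have h1 := of_params (S := S) (P := fun U v => ∃ y', InN S U y' ∧ ∀ w, E U w y' ↔
      E U w (v (φ.bd + 2)) ∧ ∃ z, E U z (v (φ.bd + 1)) ∧
      SatN S U φ (Function.update (Function.update v 0 z) 1 w)) (φ.bd + 3)
    (fun U v v' hv h => ?_) (fun V => ?_) (fun V hV U => ?_) U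
    (fun i => if i = φ.bd + 1 then x else if i = φ.bd + 2 then y else v i) (fun i _ => ?_)
  · obtain ⟨y', hy', h1⟩ := h1
    refine ⟨y', hy', fun w => ?_⟩
    have hcc := hc U (fun i => if i = φ.bd + 1 then x else if i = φ.bd + 2 then y else v i) v
      (fun i hi => by rw [if_neg (by omega), if_neg (by omega)])
    simp only [hcc, if_true, if_neg (show ¬ φ.bd + 2 = φ.bd + 1 by omega)] at h1
    exact h1 w
  · obtain ⟨y, hy, h1⟩ := h
    refine ⟨y, hy, fun w => ?_⟩
    have hcc := hc U v v' (fun i hi => hv i (by omega))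
    simp only [hcc, hv (φ.bd + 1) (by omega), hv (φ.bd + 2) (by omega)] at h1
    exact h1 w
  · exact BV.exN fun y => BV.all fun w => (BV.mem w y).biimp ((BV.mem w _).and
      (BV.ex fun z => (BV.mem z _).and (BV.satN2 φ V z w)))
  · obtain ⟨Y, hY, h⟩ := exists_sepN (S := S)
      (P := fun U w => ∃ z, E U z (q U (V (φ.bd + 1))) ∧
        SatN S U φ (Function.update (Function.update (fun i => q U (V i)) 0 z) 1 w))
      (b := fun w => ⨆ z, bmem z (V (φ.bd + 1)) ⊓
        vl S φ (Function.update (Function.update V 0 z) 1 w)) (fun w U => by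
        exact los_ex (P := fun U z => E U z (q U (V (φ.bd + 1))) ∧
          SatN S U φ (Function.update (Function.update (fun i => q U (V i)) 0 z) 1 (q U w)))
          (b := fun z => bmem z (V (φ.bd + 1)) ⊓
            vl S φ (Function.update (Function.update V 0 z) 1 w)) (fun z U => by
            rw [Ultra.inf_iff, E_q, update_q, update_q, los_sat]) U) (by
        choose e he using fun i => (hV i).symm
        obtain ⟨e', he'⟩ := exists_fix (S := S) e (φ.bd + 2)
        refine ⟨e', fun g hg w => ?_⟩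
        have key : ∀ z, bmem (act g z) (V (φ.bd + 1)) ⊓
            vl S φ (Function.update (Function.update V 0 (act g z)) 1 (act g w)) =
            g (bmem z (V (φ.bd + 1)) ⊓ vl S φ (Function.update (Function.update V 0 z) 1 w)) := by
          intro z
          rw [map_inf, bmem_equiv (he _ g (he' _ (by omega) hg)), ← vl_act (S.fix_sub _ hg)]
          congr 1
          refine vl_congr fun i hi => ?_
          by_cases h1 : i = 1
          · subst h1; simp [beq_refl]
          · simp only [Function.update_of_ne h1]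
            by_cases h0 : i = 0
            · subst h0; simp [beq_refl]
            · simp only [Function.update_of_ne h0]
              rw [beq_symm]
              exact he i g (he' i (by omega) hg)
        rw [OrderIso.map_iSup]
        apply le_antisymm
        · refine iSup_le fun z => le_iSup_of_le (act g.symm z) (le_of_eq ?_)
          rw [← key, act_act_symm]
        · refine iSup_le fun z => le_iSup_of_le (act g z) (le_of_eq ?_)
          rw [key]) (hV (φ.bd + 2))
    exact ⟨q U Y, hY.inN U, fun z => h U z⟩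
  · by_cases h : i = φ.bd + 1
    · simp [h, hx]
    · by_cases h' : i = φ.bd + 2 <;> simp [h, h', hy, hv]

/-- The symmetric submodel is a model of ZF. -/
theorem modelZF (S : SymSys B) (U : Ultra B) : ModelZF (SMod S U) (SE S U) where
  ext := by
    rintro ⟨x, hx⟩ ⟨y, hy⟩ h
    refine Subtype.ext (ext_mod U x y fun z => ⟨fun hz => ?_, fun hz => ?_⟩)
    · exact (h ⟨z, inN_trans hx hz⟩).1 hz
    · exact (h ⟨z, inN_trans hy hz⟩).2 hz
  foundation := by
    rintro ⟨x, hx⟩ ⟨y, hy⟩
    obtain ⟨y, hy, h⟩ := (modelZFC U).foundation x ⟨y.1, hy⟩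
    exact ⟨⟨y, inN_trans hx hy⟩, hy, fun z hz => h z.1 hz⟩
  pairing := by
    rintro ⟨x, hx⟩ ⟨y, hy⟩
    obtain ⟨z, hz, h⟩ := pairN U x y hx hy
    refine ⟨⟨z, hz⟩, fun w => (h w.1).trans ?_⟩
    exact or_congr ⟨fun h => Subtype.ext h, fun h => congrArg Subtype.val h⟩
      ⟨fun h => Subtype.ext h, fun h => congrArg Subtype.val h⟩
  union := by
    rintro ⟨x, hx⟩
    obtain ⟨y, hy, h⟩ := unionN U x hx
    refine ⟨⟨y, hy⟩, fun z => (h z.1).trans ?_⟩
    constructor
    · rintro ⟨w, hw, hz⟩
      exact ⟨⟨w, inN_trans hx hw⟩, hw, hz⟩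
    · rintro ⟨w, hw, hz⟩
      exact ⟨w.1, hw, hz⟩
  power := by
    rintro ⟨x, hx⟩
    obtain ⟨y, hy, h⟩ := powerN U x hx
    refine ⟨⟨y, hy⟩, fun z => (h z.1).trans ?_⟩
    constructor
    · rintro ⟨_, hw⟩ w hwz
      exact hw w.1 hwz
    · intro hw
      exact ⟨z.2, fun w hwz => hw ⟨w, inN_trans z.2 hwz⟩ hwz⟩
  infinity := by
    refine ⟨⟨q U omega, hs_omega.inN U⟩, ⟨⟨q U (num 0), (hs_num 0).inN U⟩, E_num_omega U 0,
      fun z => E_emp z.1⟩, ?_⟩
    have h1 := ball_omega (B := B)
      (P := fun U y => ∃ s, InN S U s ∧ E U s (q U omega) ∧ ∀ w, E U w s ↔ (E U w y ∨ w = y))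
      (fun x => BV.exN fun s => (BV.mem _ _).and (BV.all fun w =>
        (BV.mem _ _).biimp ((BV.mem _ _).or (BV.eq _ _))))
      (fun n U => ⟨q U (num (n + 1)), (hs_num _).inN U, E_num_omega U _, fun w => E_ins w⟩) U
    intro y hy
    obtain ⟨s, hs, hs1, hs2⟩ := h1 y.1 hy
    exact ⟨⟨s, hs⟩, hs1, fun w => (hs2 w.1).trans (or_congr Iff.rfl Subtype.ext_iff.symm)⟩
  separation := by
    intro φ v x
    obtain ⟨y, hy, h⟩ := sepN U φ (fun i => (v i).1) (fun i => (v i).2) x.1 x.2
    refine ⟨⟨y, hy⟩, fun z => (h z.1).trans (and_congr Iff.rfl ?_)⟩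
    rw [sat_iff]
    refine SatN.congr fun i _ => ?_
    by_cases h0 : i = 0
    · subst h0; simp
    · simp only [Function.update_of_ne h0]
  replacement := by
    intro φ v x hx
    have hs : ∀ z w : SMod S U, Sat (SE S U) φ (Function.update (Function.update v 0 z) 1 w) ↔
        SatN S U φ (Function.update (Function.update (fun i => (v i).1) 0 z.1) 1 w.1) := by
      intro z w
      rw [sat_iff]
      refine SatN.congr fun i _ => ?_
      by_cases h1 : i = 1
      · subst h1; simp
      · simp only [Function.update_of_ne h1]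
        by_cases h0 : i = 0
        · subst h0; simp
        · simp only [Function.update_of_ne h0]
    obtain ⟨y, hy, h⟩ := collN U φ (fun i => (v i).1) (fun i => (v i).2) x.1 x.2
    obtain ⟨y', hy', h'⟩ := sepExN U φ (fun i => (v i).1) (fun i => (v i).2) x.1 y x.2 hy
    refine ⟨⟨y', hy'⟩, fun w => (h' w.1).trans ?_⟩
    constructor
    · rintro ⟨_, z, hz, hzw⟩
      exact ⟨⟨z, inN_trans x.2 hz⟩, hz, (hs _ _).2 hzw⟩
    · rintro ⟨z, hz, hzw⟩
      obtain ⟨w', hw', hzw'⟩ := h z.1 hz ⟨w.1, w.2, (hs _ _).1 hzw⟩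
      have heq : w = ⟨w', inN_trans hy hw'⟩ := (hx z hz).unique hzw ((hs _ _).2 hzw')
      refine ⟨?_, z.1, hz, (hs _ _).1 hzw⟩
      rw [heq]
      exact hw'

end Pool.Agent.Lib.BVM
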