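import Pool.Agent.Lib.BVM.SymAbs

/-!
Names of sets of natural numbers and of sequences of such sets in symmetric submodels.
-/

open Set Classical

namespace Pool.Agent.Lib.BVM

variable {B : Type} [CompleteBooleanAlgebra B] {S : SymSys B} {U : Ultra B}

open bSet

/-- names with termwise invariant entries -/
theorem hs_mk {α : Type} {A : α → bSet B} {w : α → B}
    (h : ∃ e, ∀ g ∈ S.Fix e, ∀ a, beq (act g (A a)) (A a) = ⊤ ∧ g (w a) = w a)
    (hA : ∀ a, HS S (A a)) : HS S (bSet.mk α A w) := by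
  refine ⟨?_, hA⟩
  obtain ⟨e, he⟩ := h
  refine ⟨e, fun g hg => beq_top_of_bmem fun z => ?_⟩
  rw [act_mk, bmem_mk, bmem_mk]
  refine iSup_congr fun a => ?_
  rw [(he g hg a).2, beq_congr_top (beq_refl z) (he g hg a).1]

theorem q_congr {x y : bSet B} (h : beq x y = ⊤) (U : Ultra B) : q U x = q U y :=
  beq_top_iff.1 h U

theorem beq_ins {x x' y y' : bSet B} (h : beq x x' = ⊤) (h' : beq y y' = ⊤) :
    beq (bSet.ins y x) (bSet.ins y' x') = ⊤ := by
  rw [beq_top_iff]
  intro U
  apply ext_mod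
  intro z
  rw [E_ins, E_ins, q_congr h, q_congr h']

theorem act_ins (g : B ≃o B) (y x : bSet B) :
    beq (act g (bSet.ins y x)) (bSet.ins (act g y) (act g x)) = ⊤ := by
  refine beq_top_of_bmem fun z => ?_
  rw [bmem_act', bmem_ins, bmem_ins, map_sup, ← bmem_act, ← beq_act, act_act_symm]

theorem beq_top_trans {x y z : bSet B} (h : beq x y = ⊤) (h' : beq y z = ⊤) : beq x z = ⊤ := by
  rw [← beq_congr_top (beq_refl x) h']
  exact h

theorem act_emp (g : B ≃o B) : beq (act g bSet.emp) (bSet.emp : bSet B) = ⊤ := act_num g 0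

theorem beq_bpair {x x' y y' : bSet B} (h : beq x x' = ⊤) (h' : beq y y' = ⊤) :
    beq (bpair x y) (bpair x' y') = ⊤ := by
  unfold bpair
  exact beq_ins (beq_ins (beq_refl _) (beq_ins (beq_ins (beq_refl _) h) h))
    (beq_ins (beq_ins (beq_refl _) h) h')

theorem act_bpair (g : B ≃o B) (x y : bSet B) :
    beq (act g (bpair x y)) (bpair (act g x) (act g y)) = ⊤ := by
  unfold bpair
  refine beq_top_trans (act_ins g _ _) (beq_ins ?_ ?_)
  · refine beq_top_trans (act_ins g _ _) (beq_ins (act_emp g) ?_)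
    refine beq_top_trans (act_ins g _ _) (beq_ins ?_ (beq_refl _))
    exact beq_top_trans (act_ins g _ _) (beq_ins (act_emp g) (beq_refl _))
  · refine beq_top_trans (act_ins g _ _) (beq_ins ?_ (beq_refl _))
    exact beq_top_trans (act_ins g _ _) (beq_ins (act_emp g) (beq_refl _))

theorem act_bpair_of {g : B ≃o B} {x y x' y' : bSet B} (hx : beq (act g x) x' = ⊤)
    (hy : beq (act g y) y' = ⊤) : beq (act g (bpair x y)) (bpair x' y') = ⊤ :=
  beq_top_trans (act_bpair g x y) (beq_bpair hx hy)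

theorem hs_bpair {x y : bSet B} (hx : HS S x) (hy : HS S y) : HS S (bpair x y) :=
  hs_ins (hs_ins hs_emp (hs_ins (hs_ins hs_emp hx) hx)) (hs_ins (hs_ins hs_emp hx) hy)

/-! ### Sets of natural numbers -/

/-- name of a set of natural numbers -/
def rname (c : ℕ → B) : bSet B := bSet.mk ℕ num c

theorem mem_rname {c : ℕ → B} {n : ℕ} : E U (q U (num n)) (q U (rname c)) ↔ c n ∈ U := by
  unfold rname
  rw [E_mk]
  have h : (⨆ a, c a ⊓ beq (num n : bSet B) (num a)) = c n := by
    apply le_antisymm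
    · refine iSup_le fun a => ?_
      by_cases h : n = a
      · subst h
        exact inf_le_left
      · rw [beq_num_ne h]
        simp
    · refine le_iSup_of_le n ?_
      rw [beq_refl, inf_top_eq]
  rw [h]

theorem rname_sub {c : ℕ → B} {z : Mod U} (h : E U z (q U (rname c))) : E U z (q U omega) := by
  obtain ⟨Z, rfl⟩ := q_surj z
  refine of_mem (X := rname c) (P := fun U => E U (q U Z) (q U omega)) (Q := fun _ => True)
    (BV.mem _ _) (BV.const _) (fun n U _ hZ _ => ?_) h trivial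
  rw [hZ]
  exact E_num_omega U n

theorem act_rname (g : B ≃o B) (c : ℕ → B) :
    beq (act g (rname c)) (rname fun n => g (c n)) = ⊤ := by
  refine beq_top_of_bmem fun z => ?_
  unfold rname
  rw [act_mk, bmem_mk, bmem_mk]
  refine iSup_congr fun n => ?_
  rw [beq_congr_top (beq_refl z) (act_num g n)]

theorem beq_rname (c c' : ℕ → B) :
    beq (rname c) (rname c') = ⨅ n, (c n ⇨ c' n) ⊓ (c' n ⇨ c n) := by
  apply le_antisymm
  · refine le_iInf fun n => Ultra.le_of_forall fun U hU => ?_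
    have h := q_eq.2 hU
    rw [Ultra.inf_iff, Ultra.himp_iff, Ultra.himp_iff, ← mem_rname (c := c),
      ← mem_rname (c := c'), h]
    exact ⟨id, id⟩
  · refine le_beq_mk (fun n => ?_) (fun n => ?_)
    · refine le_trans ?_ (le_bmem_mk (num (B := B)) c' n)
      rw [← le_himp_iff]
      exact (iInf_le _ n).trans inf_le_left
    · refine le_trans ?_ (le_bmem_mk (num (B := B)) c n)
      rw [← le_himp_iff]
      exact (iInf_le _ n).trans inf_le_right

theorem hs_rname {c : ℕ → B} (h : ∃ e, ∀ g ∈ S.Fix e, ∀ n, g (c n) = c n) : HS S (rname c) := by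
  obtain ⟨e, he⟩ := h
  exact hs_mk ⟨e, fun g hg n => ⟨act_num g n, he g hg n⟩⟩ fun n => hs_num n

/-- the characteristic function of a name -/
noncomputable def chr (Z : bSet B) (n : ℕ) : B := bmem (num n) Z

theorem chr_inv {Z : bSet B} {g : B ≃o B} (h : beq (act g Z) Z = ⊤) (n : ℕ) :
    g (chr Z n) = chr Z n := by
  unfold chr
  rw [← bmem_equiv h]
  exact bmem_congr_top (act_num g n) (beq_refl _)

theorem eq_rname {Z : bSet B} (h : ∀ z, E U z (q U Z) → E U z (q U omega)) :
    q U Z = q U (rname (chr Z)) := by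
  apply ext_mod
  intro z
  obtain ⟨Y, rfl⟩ := q_surj z
  constructor
  · intro hY
    refine of_mem_omega (P := fun U => E U (q U Y) (q U (rname (chr Z))))
      (Q := fun U => E U (q U Y) (q U Z)) (BV.mem _ _) (BV.mem _ _)
      (fun n U hn hZ => ?_) (h _ hY) hY
    rw [hn, mem_rname]
    rw [hn] at hZ
    exact hZ
  · intro hY
    refine of_mem (X := rname (chr Z)) (P := fun U => E U (q U Y) (q U Z)) (Q := fun _ => True)
      (BV.mem _ _) (BV.const _) (fun n U hn hY _ => ?_) hY trivial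
    have hY : q U Y = q U (num n) := hY
    rw [hY]
    exact hn

/-! ### Sequences -/

/-- name of a sequence of sets of natural numbers -/
def sname (R : ℕ → ℕ → B) : bSet B := graphName (ι := ℕ) num (fun m => rname (R m)) (fun _ => ⊤)

theorem app_sname {R : ℕ → ℕ → B} {m : ℕ} {y : Mod U} :
    App (E U) (q U (sname R)) (q U (num m)) y ↔ y = q U (rname (R m)) := by
  obtain ⟨Y, rfl⟩ := q_surj y
  unfold sname
  rw [app_graph, q_eq]
  have h : (⨆ i : ℕ, (⊤ : B) ⊓ (beq (num m : bSet B) (num i) ⊓ beq Y (rname (R i)))) =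
      beq Y (rname (R m)) := by
    apply le_antisymm
    · refine iSup_le fun i => ?_
      by_cases h1 : m = i
      · subst h1
        exact inf_le_right.trans inf_le_right
      · rw [beq_num_ne h1]
        simp
    · refine le_iSup_of_le m ?_
      rw [beq_refl, top_inf_eq, top_inf_eq]
  rw [h]

theorem isFun_sname {R : ℕ → ℕ → B} {C : bSet B} (h : (⨅ m, bmem (rname (R m)) C) ∈ U) :
    IsFun (E U) (q U (sname R)) (q U omega) (q U C) := by
  refine ⟨⟨?_, ?_⟩, ?_⟩
  · intro p hp
    obtain ⟨Z, rfl⟩ := q_surj p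
    refine of_mem (X := sname R) (P := fun U => ∃ x y', E U x (q U omega) ∧
      IsPair (E U) x y' (q U Z)) (Q := fun _ => True)
      (BV.ex fun x => BV.ex fun y' => (BV.mem _ _).and (BV.isPair x y' Z)) (BV.const True)
      (fun m U _ hZ _ => ?_) hp trivial
    exact ⟨q U (num m), q U (rname (R m)), E_num_omega U m, isPair_iff.2 hZ⟩
  · intro x hx
    exact ball_omega (P := fun U x => ∃! y', App (E U) (q U (sname R)) x y')
      (fun x => BV.exUnique fun y' => BV.app _ x y')
      (fun m U => ⟨q U (rname (R m)), app_sname.2 rfl, fun y' hy' => app_sname.1 hy'⟩) U x hx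
  · intro x y' hxy
    obtain ⟨p, hp, hpf⟩ := hxy
    obtain ⟨X', rfl⟩ := q_surj x
    obtain ⟨Y', rfl⟩ := q_surj y'
    obtain ⟨Z, rfl⟩ := q_surj p
    refine of_mem (X := sname R) (Z := Z) (P := fun U => E U (q U Y') (q U C))
      (Q := fun U => IsPair (E U) (q U X') (q U Y') (q U Z) ∧ (⨅ m, bmem (rname (R m)) C) ∈ U)
      (BV.mem _ _) ((BV.isPair _ _ _).and (BV.of_mem _)) (fun m U _ hZ hQ => ?_) hpf ⟨hp, h⟩
    obtain ⟨hp, h⟩ := hQ
    have hZ : q U Z = q U (bpair (num m) (rname (R m))) := hZ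
    rw [hZ] at hp
    have h1 := (bpair_inj.1 (isPair_iff.1 hp)).2
    rw [← h1]
    exact Ultra.mono h (iInf_le _ m)

theorem hs_sname {R : ℕ → ℕ → B} (h : ∃ e, ∀ g ∈ S.Fix e, ∀ m n, g (R m n) = R m n) :
    HS S (sname R) := by
  obtain ⟨e, he⟩ := h
  refine hs_mk ⟨e, fun g hg m => ⟨?_, map_top g⟩⟩ fun m =>
    hs_bpair (hs_num m) (hs_rname ⟨e, fun g hg n => he g hg m n⟩)
  refine act_bpair_of (act_num g m) ?_
  have h1 := act_rname g (R m)
  have h2 : (fun n => g (R m n)) = R m := funext fun n => he g hg m n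
  rwa [h2] at h1

/-! ### Relations on the natural numbers of the ground model -/

/-- name of a relation -/
def lname (B : Type) [CompleteBooleanAlgebra B] (r : ℕ → ℕ → Prop) : bSet B :=
  graphName (ι := {p : ℕ × ℕ // r p.1 p.2}) (fun p => num p.1.1) (fun p => num p.1.2) (fun _ => ⊤)

theorem app_lname {r : ℕ → ℕ → Prop} {n m : ℕ} :
    App (E U) (q U (lname B r)) (q U (num n)) (q U (num m)) ↔ r n m := by
  unfold lname
  rw [app_graph]
  constructor
  · intro h
    by_contra hr
    have h1 : (⨆ i : {p : ℕ × ℕ // r p.1 p.2}, (⊤ : B) ⊓ (beq (num n : bSet B) (num i.1.1) ⊓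
        beq (num m) (num i.1.2))) = ⊥ := by
      rw [iSup_eq_bot]
      intro i
      by_cases h1 : n = i.1.1
      · by_cases h2 : m = i.1.2
        · exact absurd (h1 ▸ h2 ▸ i.2) hr
        · rw [beq_num_ne h2]; simp
      · rw [beq_num_ne h1]; simp
    rw [h1] at h
    exact Ultra.bot h
  · intro hr
    refine Ultra.mono Ultra.top ?_
    refine le_iSup_of_le (⟨(n, m), hr⟩ : {p : ℕ × ℕ // r p.1 p.2}) ?_
    simp only
    rw [beq_refl, beq_refl, top_inf_eq, top_inf_eq]

theorem hs_lname (r : ℕ → ℕ → Prop) : HS S (lname B r) := by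
  obtain ⟨e⟩ := S.ne
  exact hs_mk ⟨e, fun g _ p => ⟨act_bpair_of (act_num g _) (act_num g _), map_top g⟩⟩
    fun p => hs_bpair (hs_num _) (hs_num _)

end Pool.Agent.Lib.BVM
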