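import Pool.Agent.Lib.BVM.ZFC

/-!
Models of ZF.
-/

namespace Pool.Agent.Lib.BVM

universe u

/-- `(M, E)` is a model of ZF (no axiom of choice). The schemas range over all first-order
formulas with parameters from `M`. -/
structure ModelZF (M : Type u) (E : M → M → Prop) : Prop where
  ext : ∀ x y, (∀ z, E z x ↔ E z y) → x = y
  foundation : ∀ x, (∃ y, E y x) → ∃ y, E y x ∧ ∀ z, E z y → ¬ E z x
  pairing : ∀ x y, ∃ z, ∀ w, E w z ↔ w = x ∨ w = y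
  union : ∀ x, ∃ y, ∀ z, E z y ↔ ∃ w, E w x ∧ E z w
  power : ∀ x, ∃ y, ∀ z, E z y ↔ ∀ w, E w z → E w x
  infinity : ∃ x, (∃ e, E e x ∧ ∀ z, ¬ E z e) ∧
    ∀ y, E y x → ∃ s, E s x ∧ ∀ w, E w s ↔ (E w y ∨ w = y)
  separation : ∀ (φ : Fml) (v : ℕ → M) (x : M), ∃ y, ∀ z,
    E z y ↔ E z x ∧ Sat E φ (Function.update v 0 z)
  replacement : ∀ (φ : Fml) (v : ℕ → M) (x : M),
    (∀ z, E z x → ∃! y, Sat E φ (Function.update (Function.update v 0 z) 1 y)) →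
    ∃ w, ∀ y, E y w ↔ ∃ z, E z x ∧ Sat E φ (Function.update (Function.update v 0 z) 1 y)

end Pool.Agent.Lib.BVM
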