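import Pool.Agent.Lib.BVM.Sym
import Pool.Agent.Lib.BVM.ZF

/-!
The symmetric submodel is a model of ZF.
-/

open Set Classical

namespace Pool.Agent.Lib.BVM

variable {B : Type} [CompleteBooleanAlgebra B]

open bSet

/-! ### Formulas -/

/-- a strict bound for the variables of a formula -/
def Fml.bd : Fml → ℕ
  | Fml.mem i j => max i j + 1
  | Fml.eq i j => max i j + 1
  | Fml.neg φ => φ.bd
  | Fml.and φ ψ => max φ.bd ψ.bd
  | Fml.all i φ => max (i + 1) φ.bd

theorem Sat.congr {M : Type*} {E : M → M → Prop} {φ : Fml} : ∀ {v v' : ℕ → M},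
    (∀ i < φ.bd, v i = v' i) → (Sat E φ v ↔ Sat E φ v') := by
  induction φ with
  | mem i j =>
    intro v v' h
    have h1 := h i (by simp only [Fml.bd]; omega)
    have h2 := h j (by simp only [Fml.bd]; omega)
    simp only [Sat, h1, h2]
  | eq i j =>
    intro v v' h
    have h1 := h i (by simp only [Fml.bd]; omega)
    have h2 := h j (by simp only [Fml.bd]; omega)
    simp only [Sat, h1, h2]
  | neg φ ih => intro v v' h; exact not_congr (ih h)
  | and φ ψ ih1 ih2 =>
    intro v v' h
    exact and_congr (ih1 fun i hi => h i (lt_max_of_lt_left hi))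
      (ih2 fun i hi => h i (lt_max_of_lt_right hi))
  | all i φ ih =>
    intro v v' h
    refine forall_congr' fun x => ih fun j hj => ?_
    by_cases hji : j = i
    · subst hji; simp
    · simp only [Function.update_of_ne hji]
      exact h j (lt_max_of_lt_right hj)

variable (S : SymSys B)

/-- The symmetric submodel. -/
def SMod (U : Ultra B) : Type 1 := {m : Mod U // InN S U m}

/-- The membership relation of the symmetric submodel. -/
def SE (U : Ultra B) : SMod S U → SMod S U → Prop := fun x y => E U x.1 y.1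

/-- relativized satisfaction -/
def SatN (U : Ultra B) : Fml → (ℕ → Mod U) → Prop
  | Fml.mem i j, v => E U (v i) (v j)
  | Fml.eq i j, v => v i = v j
  | Fml.neg φ, v => ¬ SatN U φ v
  | Fml.and φ ψ, v => SatN U φ v ∧ SatN U ψ v
  | Fml.all i φ, v => ∀ x, InN S U x → SatN U φ (Function.update v i x)

/-- relativized Boolean value -/
noncomputable def vl : Fml → (ℕ → bSet B) → B
  | Fml.mem i j, v => bmem (v i) (v j)
  | Fml.eq i j, v => beq (v i) (v j)
  | Fml.neg φ, v => (vl φ v)ᶜ
  | Fml.and φ ψ, v => vl φ v ⊓ vl ψ v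
  | Fml.all i φ, v => ⨅ x : {x : bSet B // HS S x}, vl φ (Function.update v i x.1)

variable {S}

theorem sat_iff {U : Ultra B} {φ : Fml} : ∀ {v : ℕ → SMod S U},
    Sat (SE S U) φ v ↔ SatN S U φ (fun i => (v i).1) := by
  induction φ with
  | mem i j => intro v; exact Iff.rfl
  | eq i j => intro v; exact Subtype.ext_iff
  | neg φ ih => intro v; exact not_congr ih
  | and φ ψ ih1 ih2 => intro v; exact and_congr ih1 ih2
  | all i φ ih =>
    intro v
    have h : ∀ x : SMod S U, (fun j => (Function.update v i x j).1) =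
        Function.update (fun j => (v j).1) i x.1 := by
      intro x
      funext j
      by_cases hj : j = i
      · subst hj; simp
      · simp [hj]
    constructor
    · intro h1 x hx
      rw [← h ⟨x, hx⟩, ← ih]
      exact h1 ⟨x, hx⟩
    · intro h1 x
      rw [ih, h]
      exact h1 x.1 x.2

theorem update_q (U : Ultra B) (v : ℕ → bSet B) (i : ℕ) (x : bSet B) :
    Function.update (fun i => q U (v i)) i (q U x) = fun j => q U (Function.update v i x j) := by
  funext j
  by_cases hj : j = i
  · subst hj; simp
  · simp [hj]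

theorem los_sat (φ : Fml) : ∀ (v : ℕ → bSet B) (U : Ultra B),
    SatN S U φ (fun i => q U (v i)) ↔ vl S φ v ∈ U := by
  induction φ with
  | mem i j => intro v U; exact E_q
  | eq i j => intro v U; exact q_eq
  | neg φ ih => intro v U; exact (not_congr (ih v U)).trans Ultra.not_iff.symm
  | and φ ψ ih1 ih2 =>
    intro v U; exact (and_congr (ih1 v U) (ih2 v U)).trans Ultra.inf_iff.symm
  | all i φ ih =>
    intro v U
    exact los_allN (P := fun U m => SatN S U φ (Function.update (fun i => q U (v i)) i m))
      (b := fun x => vl S φ (Function.update v i x)) (fun x U => by rw [update_q]; exact ih _ U) U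

theorem BV.satN (φ : Fml) (v : ℕ → bSet B) : BV (fun U => SatN S U φ (fun i => q U (v i))) :=
  ⟨_, los_sat φ v⟩

theorem BV.satN1 (φ : Fml) (v : ℕ → bSet B) (x : bSet B) :
    BV (fun U => SatN S U φ (Function.update (fun i => q U (v i)) 0 (q U x))) := by
  simp only [update_q]
  exact BV.satN φ _

theorem BV.satN2 (φ : Fml) (v : ℕ → bSet B) (x y : bSet B) :
    BV (fun U => SatN S U φ (Function.update (Function.update (fun i => q U (v i)) 0 (q U x)) 1
      (q U y))) := by
  simp only [update_q]
  exact BV.satN φ _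

theorem vl_act {g : B ≃o B} (hg : g ∈ S.G) (φ : Fml) : ∀ v : ℕ → bSet B,
    vl S φ (fun i => act g (v i)) = g (vl S φ v) := by
  induction φ with
  | mem i j => intro v; exact bmem_act g _ _
  | eq i j => intro v; exact beq_act g _ _
  | neg φ ih => intro v; simp only [vl, ih, map_compl']
  | and φ ψ ih1 ih2 => intro v; simp only [vl, ih1, ih2, map_inf]
  | all i φ ih =>
    intro v
    simp only [vl]
    rw [OrderIso.map_iInf]
    apply le_antisymm
    · refine le_iInf fun x => ?_
      rw [← ih]
      refine (iInf_le _ ⟨act g x.1, x.2.act hg⟩).trans (le_of_eq ?_)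
      congr 1
      funext j
      by_cases hj : j = i
      · subst hj; simp
      · simp [hj]
    · refine le_iInf fun x => ?_
      refine (iInf_le _ ⟨act g.symm x.1, x.2.act (S.symm_mem hg)⟩).trans (le_of_eq ?_)
      rw [← ih]
      congr 1
      funext j
      by_cases hj : j = i
      · subst hj; simp [act_act_symm]
      · simp [hj]

theorem vl_congr {φ : Fml} : ∀ {v v' : ℕ → bSet B}, (∀ i < φ.bd, beq (v i) (v' i) = ⊤) →
    vl S φ v = vl S φ v' := by
  induction φ with
  | mem i j =>
    intro v v' h
    exact bmem_congr_top (h i (by simp only [Fml.bd]; omega)) (h j (by simp only [Fml.bd]; omega))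
  | eq i j =>
    intro v v' h
    exact beq_congr_top (h i (by simp only [Fml.bd]; omega)) (h j (by simp only [Fml.bd]; omega))
  | neg φ ih => intro v v' h; simp only [vl, ih h]
  | and φ ψ ih1 ih2 =>
    intro v v' h
    simp only [vl]
    rw [ih1 fun i hi => h i (lt_max_of_lt_left hi), ih2 fun i hi => h i (lt_max_of_lt_right hi)]
  | all i φ ih =>
    intro v v' h
    simp only [vl]
    refine iInf_congr fun x => ih fun j hj => ?_
    by_cases hji : j = i
    · subst hji; simp [beq_refl]
    · simp only [Function.update_of_ne hji]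
      exact h j (lt_max_of_lt_right hj)

/-! ### Symmetry of names -/

theorem beq_top_of_bmem {x y : bSet B} (h : ∀ z, bmem z x = bmem z y) : beq x y = ⊤ := by
  rw [beq_top_iff]
  intro U
  apply ext_mod
  intro z
  obtain ⟨Z, rfl⟩ := q_surj z
  rw [E_q, E_q, h]

theorem bmem_act' (g : B ≃o B) (z x : bSet B) : bmem z (act g x) = g (bmem (act g.symm z) x) := by
  rw [← bmem_act, act_act_symm]

theorem exists_fix (e : ℕ → S.ι) (n : ℕ) : ∃ e', ∀ i < n, S.Fix e' ⊆ S.Fix (e i) := by
  induction n with
  | zero => exact ⟨e 0, fun i hi => absurd hi (Nat.not_lt_zero i)⟩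
  | succ n ih =>
    obtain ⟨e', he'⟩ := ih
    obtain ⟨e'', he''⟩ := S.inter e' (e n)
    refine ⟨e'', fun i hi => ?_⟩
    rcases Nat.lt_succ_iff_lt_or_eq.1 hi with hi | rfl
    · exact (he''.trans inter_subset_left).trans (he' i hi)
    · exact he''.trans inter_subset_right

theorem hs_emp : HS S (bSet.emp : bSet B) := by
  refine ⟨?_, fun a => a.elim⟩
  obtain ⟨e⟩ := S.ne
  refine ⟨e, fun g _ => beq_top_of_bmem fun z => ?_⟩
  rw [bmem_act']
  change g (bmem _ (mk Empty _ _)) = bmem _ (mk Empty _ _)
  rw [bmem_mk, bmem_mk, iSup_of_empty, iSup_of_empty, map_bot]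

theorem bmem_ins (z y x : bSet B) : bmem z (bSet.ins y x) = bmem z x ⊔ beq z y := by
  apply Ultra.ext_of_forall
  intro U
  rw [Ultra.sup_iff, ← E_q, ← E_q, ← q_eq, E_ins]

theorem hs_ins {x y : bSet B} (hx : HS S x) (hy : HS S y) : HS S (bSet.ins y x) := by
  refine HS.mk' ?_ ?_
  · obtain ⟨e, he⟩ := hx.symm
    obtain ⟨e', he'⟩ := hy.symm
    obtain ⟨e'', he''⟩ := S.inter e e'
    refine ⟨e'', fun g hg => beq_top_of_bmem fun z => ?_⟩
    have h1 := he g (he'' hg).1
    have h2 := he' g (he'' hg).2
    rw [bmem_act', bmem_ins, bmem_ins, map_sup, ← bmem_act', ← beq_act, act_act_symm,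
      bmem_congr_top (beq_refl z) h1, beq_congr_top (beq_refl z) h2]
  · intro o
    cases o with
    | none => exact hy
    | some a => exact hx.func a

theorem hs_num (n : ℕ) : HS S (num n : bSet B) := by
  induction n with
  | zero => exact hs_emp
  | succ n ih => exact hs_ins ih ih

theorem act_num (g : B ≃o B) (n : ℕ) : beq (act g (num n)) (num n) = ⊤ := by
  induction n with
  | zero =>
    refine beq_top_of_bmem fun z => ?_
    rw [bmem_act']
    change g (bmem _ (mk Empty _ _)) = bmem _ (mk Empty _ _)
    rw [bmem_mk, bmem_mk, iSup_of_empty, iSup_of_empty, map_bot]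
  | succ n ih =>
    refine beq_top_of_bmem fun z => ?_
    change bmem z (act g (bSet.ins (num n) (num n))) = bmem z (bSet.ins (num n) (num n))
    rw [bmem_act', bmem_ins, bmem_ins, map_sup, ← bmem_act', ← beq_act, act_act_symm,
      bmem_congr_top (beq_refl z) ih, beq_congr_top (beq_refl z) ih]

/-- A name whose elements are hereditarily symmetric and whose membership function is
equivariant is hereditarily symmetric. -/
theorem hs_omega : HS S (omega : bSet B) := by
  refine ⟨?_, fun n => hs_num n⟩
  obtain ⟨e⟩ := S.ne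
  refine ⟨e, fun g _ => beq_top_of_bmem fun z => ?_⟩
  change bmem z (act g (mk ℕ num fun _ => ⊤)) = bmem z (mk ℕ num fun _ => ⊤)
  rw [bmem_act', bmem_mk, bmem_mk, OrderIso.map_iSup]
  congr 1
  funext n
  rw [map_inf, map_top, top_inf_eq, top_inf_eq, ← beq_act, act_act_symm,
    beq_congr_top (beq_refl z) (act_num g n)]

end Pool.Agent.Lib.BVM
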