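import Pool.Agent.Lib.BVM.SymZF

/-!
The symmetric submodel is a model of ZF: the axioms.
-/

open Set Classical

namespace Pool.Agent.Lib.BVM

variable {B : Type} [CompleteBooleanAlgebra B] {S : SymSys B}

open bSet

theorem BV.forall_lt {P : ℕ → Ultra B → Prop} (h : ∀ i, BV (P i)) (k : ℕ) :
    BV (fun U => ∀ i < k, P i U) := by
  induction k with
  | zero => exact ⟨⊤, fun U => ⟨fun _ => Ultra.top, fun _ i hi => absurd hi (Nat.not_lt_zero i)⟩⟩
  | succ k ih =>
    obtain ⟨b, hb⟩ := ih.and (h k)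
    refine ⟨b, fun U => ?_⟩
    rw [← hb]
    constructor
    · exact fun h => ⟨fun i hi => h i (Nat.lt_succ_of_lt hi), h k (Nat.lt_succ_self k)⟩
    · rintro ⟨h1, h2⟩ i hi
      rcases Nat.lt_succ_iff_lt_or_eq.1 hi with hi | rfl
      · exact h1 i hi
      · exact h2

/-- Reduction to hereditarily symmetric parameters. -/
theorem of_params {P : ∀ U : Ultra B, (ℕ → Mod U) → Prop} (n : ℕ)
    (hcongr : ∀ U v v', (∀ i < n, v i = v' i) → P U v → P U v')
    (hBV : ∀ V : ℕ → bSet B, BV (fun U => P U (fun i => q U (V i))))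
    (h : ∀ V : ℕ → bSet B, (∀ i, HS S (V i)) → ∀ U, P U (fun i => q U (V i)))
    (U : Ultra B) (v : ℕ → Mod U) (hv : ∀ i < n, InN S U (v i)) : P U v := by
  have key : ∀ k, k ≤ n → ∀ V : ℕ → bSet B, (∀ i, k ≤ i → HS S (V i)) → ∀ U,
      (∀ i < k, InN S U (q U (V i))) → P U (fun i => q U (V i)) := by
    intro k
    induction k with
    | zero => exact fun _ V hV U _ => h V (fun i => hV i (Nat.zero_le i)) U
    | succ k ih =>
      intro hk V hV U hU
      refine of_inN (S := S) (X := V k) (P := fun U => P U (fun i => q U (V i)))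
        (Q := fun U => ∀ i < k, InN S U (q U (V i))) (hBV V)
        (BV.forall_lt (fun i => BV.inN (V i)) k) (fun Y hY U hYk hQ => ?_)
        (hU k (Nat.lt_succ_self k)) (fun i hi => hU i (Nat.lt_succ_of_lt hi))
      have h1 := ih (by omega) (Function.update V k Y) (fun i hi => by
        by_cases hik : i = k
        · subst hik; simpa using hY
        · simp only [Function.update_of_ne hik]
          exact hV i (by omega)) U (fun i hi => by
        simp only [Function.update_of_ne (ne_of_lt hi)]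
        exact hQ i hi)
      refine hcongr U _ _ (fun i _ => ?_) h1
      by_cases hik : i = k
      · subst hik; simpa using hYk.symm
      · simp only [Function.update_of_ne hik]
  choose V hV using fun i => q_surj (v i)
  have h1 := key n le_rfl (fun i => if i < n then V i else bSet.emp) (fun i hi => by
    simp only [not_lt.2 hi, if_false]
    exact hs_emp) U (fun i hi => by
    simp only [hi, if_true]
    rw [hV]
    exact hv i hi)
  refine hcongr U _ _ (fun i hi => ?_) h1
  simp only [hi, if_true, hV]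

theorem symm_of_equiv {Y : bSet B} (h : ∃ e, ∀ g ∈ S.Fix e, ∀ z, bmem (act g z) Y = g (bmem z Y)) :
    Symm S Y := by
  obtain ⟨e, he⟩ := h
  refine ⟨e, fun g hg => beq_top_of_bmem fun z => ?_⟩
  rw [bmem_act', ← he g hg, act_act_symm]

theorem bmem_equiv {Y : bSet B} {g : B ≃o B} (h : beq (act g Y) Y = ⊤) (z : bSet B) :
    bmem (act g z) Y = g (bmem z Y) := by
  rw [← bmem_act]
  exact bmem_congr_top (beq_refl _) (by rw [beq_symm]; exact h)

/-- Separation for equivariant predicates. -/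
theorem exists_sepN {P : ∀ U : Ultra B, Mod U → Prop} {b : bSet B → B}
    (h : ∀ x U, P U (q U x) ↔ b x ∈ U)
    (hb : ∃ e, ∀ g ∈ S.Fix e, ∀ x, b (act g x) = g (b x)) {X : bSet B} (hX : HS S X) :
    ∃ Y : bSet B, HS S Y ∧ ∀ U m, E U m (q U Y) ↔ E U m (q U X) ∧ P U m := by
  have hmem : ∀ U m, E U m (q U (mk X.type X.func (fun a => X.val a ⊓ b (X.func a)))) ↔
      E U m (q U X) ∧ P U m := by
    intro U m
    obtain ⟨Z, rfl⟩ := q_surj m
    have h1 := los_bex (P := fun U m => P U m ∧ q U Z = m)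
      (b := fun x => b x ⊓ beq Z x)
      (fun x U => by rw [Ultra.inf_iff, ← h, q_eq]) X U
    rw [E_mk]
    simp only [inf_assoc]
    rw [← h1]
    constructor
    · rintro ⟨m, h2, h3, rfl⟩
      exact ⟨h2, h3⟩
    · rintro ⟨h2, h3⟩
      exact ⟨_, h2, h3, rfl⟩
  refine ⟨_, ?_, hmem⟩
  refine HS.mk' (symm_of_equiv ?_) (fun a => hX.func a)
  obtain ⟨e, he⟩ := hb
  obtain ⟨e', he'⟩ := hX.symm
  obtain ⟨e'', he''⟩ := S.inter e e'
  have hval : ∀ z, bmem z (mk X.type X.func (fun a => X.val a ⊓ b (X.func a))) =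
      bmem z X ⊓ b z := by
    intro z
    apply Ultra.ext_of_forall
    intro U
    rw [← E_q, hmem, Ultra.inf_iff, h, E_q]
  refine ⟨e'', fun g hg z => ?_⟩
  rw [hval, hval, map_inf, he g (he'' hg).1, bmem_equiv (he' g (he'' hg).2)]

theorem hsv_act {g : B ≃o B} (hg : g ∈ S.G) (x : bSet B) : hsv S (act g x) = g (hsv S x) := by
  unfold hsv
  rw [OrderIso.map_iSup]
  apply le_antisymm
  · refine iSup_le fun y => ?_
    refine le_iSup_of_le ⟨act g.symm y.1, y.2.act (S.symm_mem hg)⟩ (le_of_eq ?_)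
    rw [← beq_act, act_act_symm]
  · refine iSup_le fun y => ?_
    refine le_iSup_of_le ⟨act g y.1, y.2.act hg⟩ (le_of_eq ?_)
    rw [← beq_act]

/-- Boolean value of inclusion. -/
noncomputable def bsub (x y : bSet B) : B := ⨅ w, bmem w x ⇨ bmem w y

theorem bsub_iff {U : Ultra B} {x y : bSet B} :
    (∀ w, E U w (q U x) → E U w (q U y)) ↔ bsub x y ∈ U :=
  los_all (P := fun U w => E U w (q U x) → E U w (q U y)) (fun w U => by
    rw [Ultra.himp_iff]; exact Iff.rfl) U

theorem bsub_act (g : B ≃o B) (x y : bSet B) : bsub (act g x) (act g y) = g (bsub x y) := by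
  unfold bsub
  rw [OrderIso.map_iInf]
  apply le_antisymm
  · refine le_iInf fun w => ?_
    refine (iInf_le _ (act g w)).trans (le_of_eq ?_)
    rw [map_himp', bmem_act, bmem_act]
  · refine le_iInf fun w => ?_
    refine (iInf_le _ (act g.symm w)).trans (le_of_eq ?_)
    rw [map_himp', ← bmem_act, ← bmem_act, act_act_symm]

/-- Power set. -/
theorem exists_powN {X : bSet B} (hX : HS S X) :
    ∃ Y : bSet B, HS S Y ∧ ∀ U m, E U m (q U Y) ↔
      InN S U m ∧ ∀ w, E U w m → E U w (q U X) := by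
  have hsub : ∀ (f : X.type → B), (∀ a, f a ≤ X.val a) → ∀ U w,
      E U w (q U (mk X.type X.func f)) → E U w (q U X) := by
    intro f hf U w hw
    obtain ⟨W, rfl⟩ := q_surj w
    rw [E_mk] at hw
    rw [E_q, bmem_eq]
    exact Ultra.mono hw (iSup_mono fun a => inf_le_inf_right _ (hf a))
  set Y : bSet B := mk {f : X.type → B // (∀ a, f a ≤ X.val a) ∧ Symm S (mk X.type X.func f)}
    (fun f => mk X.type X.func f.1) (fun _ => ⊤) with hY
  have hmem : ∀ U m, E U m (q U Y) ↔ InN S U m ∧ ∀ w, E U w m → E U w (q U X) := by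
    intro U m
    obtain ⟨Z, rfl⟩ := q_surj m
    constructor
    · intro h
      refine ⟨?_, fun w hw => ?_⟩
      · refine of_mem (X := Y) (P := fun U => InN S U (q U Z)) (Q := fun _ => True)
          (BV.inN _) (BV.const _) (fun f U _ hZ _ => ?_) h trivial
        rw [hZ]
        exact HS.inN (HS.mk' f.2.2 (fun a => hX.func a)) U
      · obtain ⟨W, rfl⟩ := q_surj w
        refine of_mem (X := Y) (P := fun U => E U (q U W) (q U X))
          (Q := fun U => E U (q U W) (q U Z))
          (BV.mem _ _) (BV.mem _ _) (fun f U _ hZ hW => ?_) h hw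
        rw [hZ] at hW
        exact hsub f.1 f.2.1 U _ hW
    · rintro ⟨h1, h2⟩
      refine of_inN (S := S) (X := Z) (P := fun U => E U (q U Z) (q U Y))
        (Q := fun U => ∀ w, E U w (q U Z) → E U w (q U X)) (BV.mem _ _)
        (BV.all (P := fun U w => E U w (q U Z) → E U w (q U X)) fun w =>
          (BV.mem _ _).imp (BV.mem _ _)) (fun W hW U hZW hsubZ => ?_) h1 h2
      obtain ⟨T, hT, hTm⟩ := exists_sepN (S := S) (P := fun U m => E U m (q U W))
        (b := fun x => bmem x W) (fun x U => E_q) (by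
          obtain ⟨e, he⟩ := hW.symm
          exact ⟨e, fun g hg x => bmem_equiv (he g hg) x⟩) hX
      have hval : ∀ z, bmem z (mk X.type X.func (fun a => X.val a ⊓ bmem (X.func a) W)) =
          bmem z T := by
        intro z
        apply Ultra.ext_of_forall
        intro U
        have h1 := los_bex (P := fun U m => E U m (q U W) ∧ q U z = m)
          (b := fun x => bmem x W ⊓ beq z x)
          (fun x U => by rw [Ultra.inf_iff, E_q, q_eq]) X U
        rw [← E_q, ← E_q, hTm, E_mk]
        simp only [inf_assoc]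
        rw [← h1]
        constructor
        · rintro ⟨m, h2, h3, rfl⟩
          exact ⟨h2, h3⟩
        · rintro ⟨h2, h3⟩
          exact ⟨_, h2, h3, rfl⟩
      have hsymm : Symm S (mk X.type X.func (fun a => X.val a ⊓ bmem (X.func a) W)) :=
        hT.symm.congr (beq_top_of_bmem fun z => (hval z).symm)
      have h3 : q U Z = q U (mk X.type X.func (fun a => X.val a ⊓ bmem (X.func a) W)) := by
        rw [hZW] at hsubZ ⊢
        apply ext_mod
        intro z
        obtain ⟨z, rfl⟩ := q_surj z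
        rw [E_q (y := mk _ _ _), hval, ← E_q, hTm]
        exact ⟨fun h => ⟨hsubZ _ h, h⟩, fun h => h.2⟩
      rw [h3]
      exact Ultra.mono Ultra.top (le_bmem_mk (fun f : {f : X.type → B // (∀ a, f a ≤ X.val a) ∧
        Symm S (mk X.type X.func f)} => mk X.type X.func f.1) (fun _ => ⊤)
        ⟨_, fun a => inf_le_left, hsymm⟩)
  refine ⟨Y, HS.mk' (symm_of_equiv ?_) (fun f => HS.mk' f.2.2 (fun a => hX.func a)), hmem⟩
  obtain ⟨e, he⟩ := hX.symm
  have hval : ∀ z, bmem z Y = hsv S z ⊓ bsub z X := by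
    intro z
    apply Ultra.ext_of_forall
    intro U
    rw [← E_q, hmem, Ultra.inf_iff, inN_q, bsub_iff]
  refine ⟨e, fun g hg z => ?_⟩
  rw [hval, hval, map_inf, hsv_act (S.fix_sub e hg), ← bsub_act]
  congr 1
  apply Ultra.ext_of_forall
  intro U
  rw [← bsub_iff, ← bsub_iff, beq_top_iff.1 (he g hg) U]

/-- Union. -/
theorem exists_unionN {X : bSet B} (hX : HS S X) :
    ∃ Y : bSet B, HS S Y ∧ ∀ U m, E U m (q U Y) ↔ ∃ w, E U w (q U X) ∧ E U m w := by
  set Y : bSet B := mk (Σ a : X.type, (X.func a).type) (fun p => (X.func p.1).func p.2)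
      (fun p => X.val p.1 ⊓ (X.func p.1).val p.2) with hY
  have hmem : ∀ U m, E U m (q U Y) ↔ ∃ w, E U w (q U X) ∧ E U m w := by
    intro U m
    obtain ⟨Z, rfl⟩ := q_surj m
    rw [E_mk]
    rw [los_bex (P := fun U w => E U (q U Z) w) (b := fun w => bmem Z w) (fun x U => E_q)]
    rw [iSup_sigma]
    have h1 : ∀ a, X.val a ⊓ bmem Z (X.func a) =
        ⨆ c, X.val a ⊓ (X.func a).val c ⊓ beq Z ((X.func a).func c) := by
      intro a
      rw [bmem_eq, inf_iSup_eq]
      simp only [inf_assoc]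
    simp only [h1]
  refine ⟨Y, HS.mk' (symm_of_equiv ?_) (fun p => (hX.func p.1).func p.2), hmem⟩
  obtain ⟨e, he⟩ := hX.symm
  have hval : ∀ z, bmem z Y = ⨆ w, bmem w X ⊓ bmem z w := by
    intro z
    apply Ultra.ext_of_forall
    intro U
    rw [← E_q, hmem, los_ex (P := fun U w => E U w (q U X) ∧ E U (q U z) w)
      (b := fun w => bmem w X ⊓ bmem z w) (fun w U => by rw [Ultra.inf_iff]; exact Iff.rfl)]
  refine ⟨e, fun g hg z => ?_⟩
  rw [hval, hval, OrderIso.map_iSup]
  apply le_antisymm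
  · refine iSup_le fun w => le_iSup_of_le (act g.symm w) (le_of_eq ?_)
    rw [map_inf, ← bmem_act g z, ← bmem_equiv (he g hg), act_act_symm]
  · refine iSup_le fun w => le_iSup_of_le (act g w) (le_of_eq ?_)
    rw [map_inf, ← bmem_act g z, ← bmem_equiv (he g hg)]

/-- Collection. -/
theorem exists_collN {P : ∀ U : Ultra B, Mod U → Mod U → Prop} {b : bSet B → bSet B → B}
    (h : ∀ x y U, P U (q U x) (q U y) ↔ b x y ∈ U) {X : bSet B} :
    ∃ Y : bSet B, HS S Y ∧ ∀ U m, E U m (q U X) → (∃ y, InN S U y ∧ P U m y) →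
      ∃ y, E U y (q U Y) ∧ P U m y := by
  have hch : ∀ (a : X.type) (c : B), ∃ y : bSet B, HS S y ∧
      ((∃ y', HS S y' ∧ b (X.func a) y' = c) → b (X.func a) y = c) := by
    intro a c
    by_cases hex : ∃ y', HS S y' ∧ b (X.func a) y' = c
    · obtain ⟨y, hy, hc⟩ := hex
      exact ⟨y, hy, fun _ => hc⟩
    · exact ⟨bSet.emp, hs_emp, fun h => absurd h hex⟩
  choose y hy hyc using hch
  set Y : bSet B := mk (X.type × B × S.G) (fun p => act p.2.2.1 (y p.1 p.2.1)) (fun _ => ⊤) with hY
  refine ⟨Y, HS.mk' (symm_of_equiv ?_) (fun p => (hy _ _).act p.2.2.2), fun U m h1 h2 => ?_⟩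
  · obtain ⟨e⟩ := S.ne
    refine ⟨e, fun g hg z => ?_⟩
    have hgG := S.fix_sub e hg
    rw [hY, bmem_mk, bmem_mk, OrderIso.map_iSup]
    apply le_antisymm
    · refine iSup_le fun p => le_iSup_of_le ⟨p.1, p.2.1, ⟨p.2.2.1.trans g.symm,
        S.trans_mem p.2.2.2 (S.symm_mem hgG)⟩⟩ (le_of_eq ?_)
      simp only
      rw [map_inf, map_top, ← beq_act, act_trans, act_act_symm]
    · refine iSup_le fun p => le_iSup_of_le ⟨p.1, p.2.1, ⟨p.2.2.1.trans g,
        S.trans_mem p.2.2.2 hgG⟩⟩ (le_of_eq ?_)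
      simp only
      rw [map_inf, map_top, ← beq_act, act_trans]
  · obtain ⟨Z, rfl⟩ := q_surj m
    refine of_mem (X := X) (Z := Z) (P := fun U => ∃ y', E U y' (q U Y) ∧ P U (q U Z) y')
      (Q := fun U => ∃ y', InN S U y' ∧ P U (q U Z) y')
      (BV.ex fun y' => (BV.mem _ _).and ⟨_, fun U => h Z y' U⟩)
      (BV.exN fun y' => ⟨_, fun U => h Z y' U⟩) (fun a U _ hZ hex => ?_) h1 h2
    rw [hZ] at hex ⊢
    rw [los_exN (P := fun U y' => P U (q U (X.func a)) y') (fun y' U => h (X.func a) y' U)] at hex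
    refine of_iSup (P := fun U => ∃ y', E U y' (q U Y) ∧ P U (q U (X.func a)) y')
      (Q := fun _ => True) (BV.ex fun y' => (BV.mem _ _).and ⟨_, fun U => h (X.func a) y' U⟩)
      (BV.const _) (fun y' U hy' _ => ?_) hex trivial
    have hc := hyc a (b (X.func a) y'.1) ⟨y'.1, y'.2, rfl⟩
    refine ⟨q U (act (OrderIso.refl B) (y a (b (X.func a) y'.1))), ?_, ?_⟩
    · exact Ultra.mono Ultra.top (le_bmem_mk (fun p : X.type × B × S.G =>
        act p.2.2.1 (y p.1 p.2.1)) (fun _ => ⊤)
        (a, b (X.func a) y'.1, ⟨OrderIso.refl B, S.refl_mem⟩))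
    · rw [act_refl, h, hc]
      exact hy'

theorem SatN.congr {U : Ultra B} {φ : Fml} : ∀ {v v' : ℕ → Mod U},
    (∀ i < φ.bd, v i = v' i) → (SatN S U φ v ↔ SatN S U φ v') := by
  induction φ with
  | mem i j =>
    intro v v' h
    have h1 := h i (by simp only [Fml.bd]; omega)
    have h2 := h j (by simp only [Fml.bd]; omega)
    simp only [SatN, h1, h2]
  | eq i j =>
    intro v v' h
    have h1 := h i (by simp only [Fml.bd]; omega)
    have h2 := h j (by simp only [Fml.bd]; omega)
    simp only [SatN, h1, h2]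
  | neg φ ih => intro v v' h; exact not_congr (ih h)
  | and φ ψ ih1 ih2 =>
    intro v v' h
    exact and_congr (ih1 fun i hi => h i (lt_max_of_lt_left hi))
      (ih2 fun i hi => h i (lt_max_of_lt_right hi))
  | all i φ ih =>
    intro v v' h
    refine forall_congr' fun x => imp_congr Iff.rfl (ih fun j hj => ?_)
    by_cases hji : j = i
    · subst hji; simp
    · simp only [Function.update_of_ne hji]
      exact h j (lt_max_of_lt_right hj)

end Pool.Agent.Lib.BVM
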